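import Mathlib

/-!
# Project CQ, degree seven: the elimination

`P = a7 X^7 + ... + a0`. The conditions say: `P ≠ 0` at `∞, 0, 1, -1, 3, -3`; the sum of the roots of `P` is
`m1`; `P'/P` is `-m1` at `0`, `(m2 + 7)/4` at `1`, `-(m2 + 7)/4` at `-3`, `-(7 - m3)/4` at `-1`, `(7 - m3)/4` at
`3`, and three quadratic equations for the values at `i`, `-1 + 2 i`, `1 + 2 i`. For the pairs
`(x, y)`, `0 ≤ y ≤ x`, `x + y ≤ 7`, `m1 = x - y`, `m2 = y`, `m3 = -x` there is no such `P` in characteristic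
different from `2, 3, 5, 7, 11`.
-/

namespace H10CQ

/-- the equations for the coefficients of `P` -/
structure Sys7 {F : Type*} [Field F] (m1 m2 m3 a0 a1 a2 a3 a4 a5 a6 a7 : F) : Prop where
  z7 : a7 ≠ 0
  z0 : a0 ≠ 0
  z1 : a0 + a1 + a2 + a3 + a4 + a5 + a6 + a7 ≠ 0
  y1 : a0 - a1 + a2 - a3 + a4 - a5 + a6 - a7 ≠ 0
  z3 : a0 + 3 * a1 + 9 * a2 + 27 * a3 + 81 * a4 + 243 * a5 + 729 * a6 + 2187 * a7 ≠ 0
  y3 : a0 - 3 * a1 + 9 * a2 - 27 * a3 + 81 * a4 - 243 * a5 + 729 * a6 - 2187 * a7 ≠ 0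
  l1 : a6 + m1 * a7 = 0
  l2 : a1 + m1 * a0 = 0
  l3 : 4 * (a1 + 2 * a2 + 3 * a3 + 4 * a4 + 5 * a5 + 6 * a6 + 7 * a7) - (m2 + 7) * (a0 + a1 + a2 + a3 + a4 + a5 + a6 + a7) = 0
  l4 : 4 * (a1 - 6 * a2 + 27 * a3 - 108 * a4 + 405 * a5 - 1458 * a6 + 5103 * a7) + (m2 + 7) * (a0 - 3 * a1 + 9 * a2 - 27 * a3 + 81 * a4 - 243 * a5 + 729 * a6 - 2187 * a7) = 0
  l5 : 4 * (a1 - 2 * a2 + 3 * a3 - 4 * a4 + 5 * a5 - 6 * a6 + 7 * a7) + (7 - m3) * (a0 - a1 + a2 - a3 + a4 - a5 + a6 - a7) = 0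
  l6 : 4 * (a1 + 6 * a2 + 27 * a3 + 108 * a4 + 405 * a5 + 1458 * a6 + 5103 * a7) - (7 - m3) * (a0 + 3 * a1 + 9 * a2 + 27 * a3 + 81 * a4 + 243 * a5 + 729 * a6 + 2187 * a7) = 0
  q1 : 2 * ((a0 - a2 + a4 - a6) * (a1 - 3 * a3 + 5 * a5 - 7 * a7) + (a1 - a3 + a5 - a7) * (2 * a2 - 4 * a4 + 6 * a6)) + m1 * ((a0 - a2 + a4 - a6) ^ 2 + (a1 - a3 + a5 - a7) ^ 2) = 0
  q2 : 4 * ((4 * a2 - 12 * a3 - 8 * a4 + 120 * a5 - 228 * a6 - 308 * a7) * (a0 - a1 - 3 * a2 + 11 * a3 - 7 * a4 - 41 * a5 + 117 * a6 - 29 * a7) - (a1 - 2 * a2 - 9 * a3 + 44 * a4 - 35 * a5 - 246 * a6 + 819 * a7) * (2 * a1 - 4 * a2 - 2 * a3 + 24 * a4 - 38 * a5 - 44 * a6 + 278 * a7)) + (m2 + 7) * ((a0 - a1 - 3 * a2 + 11 * a3 - 7 * a4 - 41 * a5 + 117 * a6 - 29 * a7) ^ 2 + (2 * a1 - 4 * a2 - 2 * a3 + 24 * a4 - 38 * a5 - 44 * a6 + 278 * a7) ^ 2) = 0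
  q3 : 4 * ((4 * a2 + 12 * a3 - 8 * a4 - 120 * a5 - 228 * a6 + 308 * a7) * (a0 + a1 - 3 * a2 - 11 * a3 - 7 * a4 + 41 * a5 + 117 * a6 + 29 * a7) - (a1 + 2 * a2 - 9 * a3 - 44 * a4 - 35 * a5 + 246 * a6 + 819 * a7) * (2 * a1 + 4 * a2 - 2 * a3 - 24 * a4 - 38 * a5 + 44 * a6 + 278 * a7)) + (7 - m3) * ((a0 + a1 - 3 * a2 - 11 * a3 - 7 * a4 + 41 * a5 + 117 * a6 + 29 * a7) ^ 2 + (2 * a1 + 4 * a2 - 2 * a3 - 24 * a4 - 38 * a5 + 44 * a6 + 278 * a7) ^ 2) = 0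

/-- the characteristic is not `2, 3, 5, 7, 11` -/
structure Big (F : Type*) [Field F] : Prop where
  n2 : (2 : F) ≠ 0
  n3 : (3 : F) ≠ 0
  n5 : (5 : F) ≠ 0
  n7 : (7 : F) ≠ 0
  n11 : (11 : F) ≠ 0

theorem Big.ne {F : Type*} [Field F] (h : Big F) (a b c d e : ℕ) :
    (2 : F) ^ a * 3 ^ b * 5 ^ c * 7 ^ d * 11 ^ e ≠ 0 :=
  mul_ne_zero (mul_ne_zero (mul_ne_zero (mul_ne_zero (pow_ne_zero _ h.n2) (pow_ne_zero _ h.n3))
    (pow_ne_zero _ h.n5)) (pow_ne_zero _ h.n7)) (pow_ne_zero _ h.n11)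

theorem c7_0_0 {F : Type*} [Field F] (hF : Big F) {a0 a1 a2 a3 a4 a5 a6 a7 : F}
    (h : Sys7 (0 : F) 0 (0) a0 a1 a2 a3 a4 a5 a6 a7) : False := by
  obtain ⟨z7, z0, z1, y1, z3, y3, l1, l2, l3, l4, l5, l6, q1, q2, q3⟩ := h
  obtain ⟨u, v, e0, e1, e2, e3, e4, e5, e6, e7⟩ : ∃ u v : F, a0 = -27 * v ∧ a1 = 0 ∧ a2 = 126 * v ∧ a3 = 105 * u ∧ a4 = -35 * v ∧ a5 = -42 * u ∧ a6 = 0 ∧ a7 = 0 + u := by
    refine ⟨-85785 * a0 + 84088 * a3 + 66177 * a4 + 178923 * a5 - 1314473 * a7, -807393 * a0 + 791421 * a3 + 622846 * a4 + 1683991 * a5 - 12371583 * a7, ?_, ?_, ?_, ?_, ?_, ?_, ?_, ?_⟩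
    · refine sub_eq_zero.mp ((mul_eq_zero.mp ?_).resolve_left (hF.ne 2 1 0 0 0))
      linear_combination -1300502448 * l1 + 92564852 * l2 + 36292788 * l3 - 934264 * l4 - 143703 * l5 + 5 * l6
    · refine sub_eq_zero.mp ((mul_eq_zero.mp ?_).resolve_left (hF.ne 0 0 0 0 0))
      linear_combination l2
    · refine sub_eq_zero.mp ((mul_eq_zero.mp ?_).resolve_left (hF.ne 4 2 0 0 0))
      linear_combination 72828142992 * l1 - 5183631712 * l2 - 2032396173 * l3 + 52318787 * l4 + 8047413 * l5 - 283 * l6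
    · refine sub_eq_zero.mp ((mul_eq_zero.mp ?_).resolve_left (hF.ne 4 4 0 0 0))
      linear_combination 58034581920 * l1 - 4130682448 * l2 - 1619556201 * l3 + 41691287 * l4 + 6412689 * l5 - 223 * l6
    · refine sub_eq_zero.mp ((mul_eq_zero.mp ?_).resolve_left (hF.ne 4 4 0 0 0))
      linear_combination -182070351072 * l1 + 12959079280 * l2 + 5080990437 * l3 - 130796963 * l4 - 20118537 * l5 + 703 * l6
    · refine sub_eq_zero.mp ((mul_eq_zero.mp ?_).resolve_left (hF.ne 4 4 0 0 0))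
      linear_combination -23213832768 * l1 + 1652273264 * l2 + 647822529 * l3 - 16676515 * l4 - 2565027 * l5 + 89 * l6
    · refine sub_eq_zero.mp ((mul_eq_zero.mp ?_).resolve_left (hF.ne 0 0 0 0 0))
      linear_combination l1
    · refine sub_eq_zero.mp ((mul_eq_zero.mp ?_).resolve_left (hF.ne 3 4 0 0 0))
      linear_combination 276355152 * l1 - 19669912 * l2 - 7712172 * l3 + 198530 * l4 + 30537 * l5 - l6
  subst e0 e1 e2 e3 e4 e5 e6 e7
  have tP1 : (64 * u + 64 * v) ≠ 0 := fun h0 => z1 (by linear_combination h0)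
  have tPm3 : (5184 * u - 1728 * v) ≠ 0 := fun h0 => y3 (by linear_combination h0)
  have key : ((2 : F) ^ 0 * 3 ^ 0 * 5 ^ 3 * 7 ^ 1 * 11 ^ 0) * ((64 * u + 64 * v) * (5184 * u - 1728 * v)) = 0 := by
    linear_combination (-36) * q2
  exact mul_ne_zero (hF.ne _ _ _ _ _) (mul_ne_zero tP1 tPm3) key

theorem c7_1_0 {F : Type*} [Field F] (hF : Big F) {a0 a1 a2 a3 a4 a5 a6 a7 : F}
    (h : Sys7 (1 : F) 0 (-1) a0 a1 a2 a3 a4 a5 a6 a7) : False := by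
  obtain ⟨z7, z0, z1, y1, z3, y3, l1, l2, l3, l4, l5, l6, q1, q2, q3⟩ := h
  obtain ⟨u, v, e0, e1, e2, e3, e4, e5, e6, e7⟩ : ∃ u v : F, a0 = -u - 3 * v ∧ a1 = u + 3 * v ∧ a2 = 2 * u + 357 * v ∧ a3 = -2 * u + 315 * v ∧ a4 = -u - 33 * v ∧ a5 = u - 127 * v ∧ a6 = -v ∧ a7 = 0 + v := by
    refine ⟨10668 * a0 - 16002 * a3 - 12700 * a4 - 34035 * a5 + 331089 * a7, 84 * a0 - 126 * a3 - 100 * a4 - 268 * a5 + 2607 * a7, ?_, ?_, ?_, ?_, ?_, ?_, ?_, ?_⟩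
    · refine sub_eq_zero.mp ((mul_eq_zero.mp ?_).resolve_left (hF.ne 4 3 0 0 0))
      linear_combination 35944128 * l1 - 2544784 * l2 - 1003671 * l3 + 25745 * l4 + 7101 * l5 + 8 * l6
    · refine sub_eq_zero.mp ((mul_eq_zero.mp ?_).resolve_left (hF.ne 4 3 0 0 0))
      linear_combination -35944128 * l1 + 2545216 * l2 + 1003671 * l3 - 25745 * l4 - 7101 * l5 - 8 * l6
    · refine sub_eq_zero.mp ((mul_eq_zero.mp ?_).resolve_left (hF.ne 5 3 0 0 0))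
      linear_combination -337857696 * l1 + 23920192 * l2 + 9434070 * l3 - 241994 * l4 - 66555 * l5 - 95 * l6
    · refine sub_eq_zero.mp ((mul_eq_zero.mp ?_).resolve_left (hF.ne 4 2 0 0 0))
      linear_combination -5622336 * l1 + 398144 * l2 + 157005 * l3 - 4027 * l4 - 1098 * l5 - l6
    · refine sub_eq_zero.mp ((mul_eq_zero.mp ?_).resolve_left (hF.ne 5 2 0 0 0))
      linear_combination 29491776 * l1 - 2088032 * l2 - 823500 * l3 + 21124 * l4 + 5805 * l5 + 7 * l6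
    · ring
    · refine sub_eq_zero.mp ((mul_eq_zero.mp ?_).resolve_left (hF.ne 3 1 0 0 0))
      linear_combination 15384 * l1 - 1088 * l2 - 429 * l3 + 11 * l4 + 3 * l5
    · refine sub_eq_zero.mp ((mul_eq_zero.mp ?_).resolve_left (hF.ne 3 1 0 0 0))
      linear_combination -15360 * l1 + 1088 * l2 + 429 * l3 - 11 * l4 - 3 * l5
  subst e0 e1 e2 e3 e4 e5 e6 e7
  have tPm1 : (128 * v) ≠ 0 := fun h0 => y1 (by linear_combination h0)
  have tPm3 : (-256 * u + 19968 * v) ≠ 0 := fun h0 => y3 (by linear_combination h0)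
  have key : ((2 : F) ^ 0 * 3 ^ 0 * 5 ^ 1 * 7 ^ 0 * 11 ^ 0) * ((128 * v) * (-256 * u + 19968 * v)) = 0 := by
    linear_combination (-256) * q1 + (1) * q2 + (2) * q3
  exact mul_ne_zero (hF.ne _ _ _ _ _) (mul_ne_zero tPm1 tPm3) key

theorem c7_1_1 {F : Type*} [Field F] (hF : Big F) {a0 a1 a2 a3 a4 a5 a6 a7 : F}
    (h : Sys7 (0 : F) 1 (-1) a0 a1 a2 a3 a4 a5 a6 a7) : False := by
  obtain ⟨z7, z0, z1, y1, z3, y3, l1, l2, l3, l4, l5, l6, q1, q2, q3⟩ := h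
  obtain ⟨u, v, e0, e1, e2, e3, e4, e5, e6, e7⟩ : ∃ u v : F, a0 = 3 * v ∧ a1 = 0 ∧ a2 = -14 * v ∧ a3 = -3 * u ∧ a4 = 3 * v ∧ a5 = 0 + u ∧ a6 = 0 ∧ a7 = 0 := by
    refine ⟨a5, -4 * a0 + a2 + 9 * a4 + 72 * a7, ?_, ?_, ?_, ?_, ?_, ?_, ?_, ?_⟩
    · refine sub_eq_zero.mp ((mul_eq_zero.mp ?_).resolve_left (hF.ne 4 0 0 0 0))
      linear_combination 432 * l1 - 128 * l2 - 27 * l3 - l4
    · refine sub_eq_zero.mp ((mul_eq_zero.mp ?_).resolve_left (hF.ne 0 0 0 0 0))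
      linear_combination l2
    · refine sub_eq_zero.mp ((mul_eq_zero.mp ?_).resolve_left (hF.ne 5 1 0 0 0))
      linear_combination -11232 * l1 + 3584 * l2 + 729 * l3 + 29 * l4 + 27 * l5 - l6
    · refine sub_eq_zero.mp ((mul_eq_zero.mp ?_).resolve_left (hF.ne 8 3 0 0 0))
      linear_combination 5632 * l2 + 729 * l3 - 5 * l4 + 729 * l5 - 5 * l6
    · refine sub_eq_zero.mp ((mul_eq_zero.mp ?_).resolve_left (hF.ne 4 0 0 0 0))
      linear_combination 400 * l1 - 128 * l2 - 26 * l3 - l4 - l5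
    · ring
    · refine sub_eq_zero.mp ((mul_eq_zero.mp ?_).resolve_left (hF.ne 0 0 0 0 0))
      linear_combination l1
    · refine sub_eq_zero.mp ((mul_eq_zero.mp ?_).resolve_left (hF.ne 8 3 0 0 0))
      linear_combination 256 * l2 + 27 * l3 + l4 + 27 * l5 + l6
  subst e0 e1 e2 e3 e4 e5 e6 e7
  exact z7 (by ring)

theorem c7_2_0 {F : Type*} [Field F] (hF : Big F) {a0 a1 a2 a3 a4 a5 a6 a7 : F}
    (h : Sys7 (2 : F) 0 (-2) a0 a1 a2 a3 a4 a5 a6 a7) : False := by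
  obtain ⟨z7, z0, z1, y1, z3, y3, l1, l2, l3, l4, l5, l6, q1, q2, q3⟩ := h
  obtain ⟨u, v, e0, e1, e2, e3, e4, e5, e6, e7⟩ : ∃ u v : F, a0 = -21 * u + 15 * v ∧ a1 = 42 * u - 30 * v ∧ a2 = -16 * u - 166 * v ∧ a3 = 5 * u - 52 * v ∧ a4 = -25 * u + 23 * v ∧ a5 = 16 * u + 18 * v ∧ a6 = -2 * u ∧ a7 = 0 + u := by
    refine ⟨4376 * a0 - 15310 * a3 - 11936 * a4 - 32624 * a5 + 392031 * a7, 1450 * a0 - 5073 * a3 - 3955 * a4 - 10810 * a5 + 129900 * a7, ?_, ?_, ?_, ?_, ?_, ?_, ?_, ?_⟩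
    · refine sub_eq_zero.mp ((mul_eq_zero.mp ?_).resolve_left (hF.ne 3 2 1 0 0))
      linear_combination 445185072 * l1 - 32061088 * l2 - 12471165 * l3 + 320237 * l4 - 18306 * l5 - 4 * l6
    · refine sub_eq_zero.mp ((mul_eq_zero.mp ?_).resolve_left (hF.ne 2 2 1 0 0))
      linear_combination -445185072 * l1 + 32061268 * l2 + 12471165 * l3 - 320237 * l4 + 18306 * l5 + 4 * l6
    · refine sub_eq_zero.mp ((mul_eq_zero.mp ?_).resolve_left (hF.ne 4 3 1 0 0))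
      linear_combination 11831789232 * l1 - 852105728 * l2 - 331451595 * l3 + 8511037 * l4 - 486891 * l5 - 179 * l6
    · refine sub_eq_zero.mp ((mul_eq_zero.mp ?_).resolve_left (hF.ne 4 2 0 0 0))
      linear_combination 135865728 * l1 - 9784672 * l2 - 3806055 * l3 + 97733 * l4 - 5589 * l5 - l6
    · refine sub_eq_zero.mp ((mul_eq_zero.mp ?_).resolve_left (hF.ne 4 3 0 0 0))
      linear_combination 579185856 * l1 - 41711552 * l2 - 16224975 * l3 + 416629 * l4 - 23841 * l5 - 5 * l6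
    · refine sub_eq_zero.mp ((mul_eq_zero.mp ?_).resolve_left (hF.ne 4 3 1 0 0))
      linear_combination -3660019776 * l1 + 263586544 * l2 + 102529935 * l3 - 2632781 * l4 + 150633 * l5 + 37 * l6
    · refine sub_eq_zero.mp ((mul_eq_zero.mp ?_).resolve_left (hF.ne 2 3 1 0 0))
      linear_combination 83317788 * l1 - 6000352 * l2 - 2334015 * l3 + 59933 * l4 - 3429 * l5 - l6
    · refine sub_eq_zero.mp ((mul_eq_zero.mp ?_).resolve_left (hF.ne 3 3 1 0 0))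
      linear_combination -83317248 * l1 + 6000352 * l2 + 2334015 * l3 - 59933 * l4 + 3429 * l5 + l6
  subst e0 e1 e2 e3 e4 e5 e6 e7
  have tP1 : (-192 * v) ≠ 0 := fun h0 => z1 (by linear_combination h0)
  have tPm3 : (-9984 * u - 2496 * v) ≠ 0 := fun h0 => y3 (by linear_combination h0)
  have key : ((2 : F) ^ 0 * 3 ^ 0 * 5 ^ 1 * 7 ^ 0 * 11 ^ 0) * ((-192 * v) * (-9984 * u - 2496 * v)) = 0 := by
    linear_combination (79872) * q1 + (-780) * q2 + (-624) * q3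
  exact mul_ne_zero (hF.ne _ _ _ _ _) (mul_ne_zero tP1 tPm3) key

theorem c7_2_1 {F : Type*} [Field F] (hF : Big F) {a0 a1 a2 a3 a4 a5 a6 a7 : F}
    (h : Sys7 (1 : F) 1 (-2) a0 a1 a2 a3 a4 a5 a6 a7) : False := by
  obtain ⟨z7, z0, z1, y1, z3, y3, l1, l2, l3, l4, l5, l6, q1, q2, q3⟩ := h
  obtain ⟨u, v, e0, e1, e2, e3, e4, e5, e6, e7⟩ : ∃ u v : F, a0 = -3 * u - 15 * v ∧ a1 = 3 * u + 15 * v ∧ a2 = 22 * u + 29 * v ∧ a3 = 18 * u - 29 * v ∧ a4 = -3 * u - 13 * v ∧ a5 = -5 * u + 13 * v ∧ a6 = -v ∧ a7 = 0 + v := by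
    refine ⟨-2 * a0 + a2 + 9 * a4 + 58 * a7, a7, ?_, ?_, ?_, ?_, ?_, ?_, ?_, ?_⟩
    · refine sub_eq_zero.mp ((mul_eq_zero.mp ?_).resolve_left (hF.ne 4 0 0 0 0))
      linear_combination -432 * l1 + 128 * l2 + 27 * l3 + l4
    · refine sub_eq_zero.mp ((mul_eq_zero.mp ?_).resolve_left (hF.ne 4 0 0 0 0))
      linear_combination 432 * l1 - 112 * l2 - 27 * l3 - l4
    · refine sub_eq_zero.mp ((mul_eq_zero.mp ?_).resolve_left (hF.ne 5 2 0 0 0))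
      linear_combination 59616 * l1 - 15616 * l2 - 3483 * l3 - 127 * l4 + 162 * l5 + 2 * l6
    · refine sub_eq_zero.mp ((mul_eq_zero.mp ?_).resolve_left (hF.ne 4 4 0 0 0))
      linear_combination 225504 * l1 - 50656 * l2 - 11664 * l3 - 463 * l4 + 891 * l5 + 35 * l6
    · refine sub_eq_zero.mp ((mul_eq_zero.mp ?_).resolve_left (hF.ne 5 4 0 0 0))
      linear_combination -75168 * l1 + 20224 * l2 + 4455 * l3 + 163 * l4 - 162 * l5 - 2 * l6
    · refine sub_eq_zero.mp ((mul_eq_zero.mp ?_).resolve_left (hF.ne 4 4 0 0 0))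
      linear_combination -63504 * l1 + 14032 * l2 + 3240 * l3 + 127 * l4 - 243 * l5 - 11 * l6
    · refine sub_eq_zero.mp ((mul_eq_zero.mp ?_).resolve_left (hF.ne 0 0 0 0 0))
      linear_combination l1
    · ring
  subst e0 e1 e2 e3 e4 e5 e6 e7
  exact y1 (by ring)

theorem c7_2_2 {F : Type*} [Field F] (hF : Big F) {a0 a1 a2 a3 a4 a5 a6 a7 : F}
    (h : Sys7 (0 : F) 2 (-2) a0 a1 a2 a3 a4 a5 a6 a7) : False := by
  obtain ⟨z7, z0, z1, y1, z3, y3, l1, l2, l3, l4, l5, l6, q1, q2, q3⟩ := h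
  obtain ⟨u, v, e0, e1, e2, e3, e4, e5, e6, e7⟩ : ∃ u v : F, a0 = 29 * v ∧ a1 = 0 ∧ a2 = -114 * v ∧ a3 = -87 * u ∧ a4 = 21 * v ∧ a5 = 22 * u ∧ a6 = 0 ∧ a7 = 0 + u := by
    refine ⟨a7, -55 * a0 + 4 * a3 + 76 * a4 + 6 * a5 + 216 * a7, ?_, ?_, ?_, ?_, ?_, ?_, ?_, ?_⟩
    · refine sub_eq_zero.mp ((mul_eq_zero.mp ?_).resolve_left (hF.ne 3 3 0 0 0))
      linear_combination 1083456 * l1 - 228752 * l2 - 40635 * l3 - 719 * l4 - 1647 * l5 - 35 * l6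
    · refine sub_eq_zero.mp ((mul_eq_zero.mp ?_).resolve_left (hF.ne 0 0 0 0 0))
      linear_combination l2
    · refine sub_eq_zero.mp ((mul_eq_zero.mp ?_).resolve_left (hF.ne 4 2 0 0 0))
      linear_combination -2839536 * l1 + 599488 * l2 + 106461 * l3 + 1885 * l4 + 4347 * l5 + 91 * l6
    · refine sub_eq_zero.mp ((mul_eq_zero.mp ?_).resolve_left (hF.ne 4 3 0 0 0))
      linear_combination 6176 * l2 + 567 * l3 + 11 * l4 + 567 * l5 + 11 * l6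
    · refine sub_eq_zero.mp ((mul_eq_zero.mp ?_).resolve_left (hF.ne 4 2 0 0 0))
      linear_combination 522720 * l1 - 110432 * l2 - 19611 * l3 - 347 * l4 - 801 * l5 - 17 * l6
    · refine sub_eq_zero.mp ((mul_eq_zero.mp ?_).resolve_left (hF.ne 4 2 0 0 0))
      linear_combination -496 * l2 - 45 * l3 - l4 - 45 * l5 - l6
    · refine sub_eq_zero.mp ((mul_eq_zero.mp ?_).resolve_left (hF.ne 0 0 0 0 0))
      linear_combination l1
    · ring
  subst e0 e1 e2 e3 e4 e5 e6 e7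
  have tP0 : (29 * v) ≠ 0 := fun h0 => z0 (by linear_combination h0)
  have ta7 : (u) ≠ 0 := fun h0 => z7 (by linear_combination h0)
  have key : ((2 : F) ^ 5 * 3 ^ 0 * 5 ^ 3 * 7 ^ 0 * 11 ^ 0) * ((29 * v) * (u)) = 0 := by
    linear_combination (35409) * q1 + (116) * q2 + (-116) * q3
  exact mul_ne_zero (hF.ne _ _ _ _ _) (mul_ne_zero tP0 ta7) key

theorem c7_3_0 {F : Type*} [Field F] (hF : Big F) {a0 a1 a2 a3 a4 a5 a6 a7 : F}
    (h : Sys7 (3 : F) 0 (-3) a0 a1 a2 a3 a4 a5 a6 a7) : False := by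
  obtain ⟨z7, z0, z1, y1, z3, y3, l1, l2, l3, l4, l5, l6, q1, q2, q3⟩ := h
  obtain ⟨u, v, e0, e1, e2, e3, e4, e5, e6, e7⟩ : ∃ u v : F, a0 = -9 * u + 18 * v ∧ a1 = 27 * u - 54 * v ∧ a2 = -33 * u - 69 * v ∧ a3 = 27 * u - 57 * v ∧ a4 = -19 * u + 32 * v ∧ a5 = 9 * u ∧ a6 = -3 * u + 3 * v ∧ a7 = u - v := by
    refine ⟨-262 * a0 - 3628 * a3 - 2840 * a4 - 7729 * a5 + 111200 * a7, -262 * a0 - 3628 * a3 - 2840 * a4 - 7729 * a5 + 111199 * a7, ?_, ?_, ?_, ?_, ?_, ?_, ?_, ?_⟩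
    · refine sub_eq_zero.mp ((mul_eq_zero.mp ?_).resolve_left (hF.ne 6 1 0 0 0))
      linear_combination -31617792 * l1 + 2271424 * l2 + 885960 * l3 - 22712 * l4 - 63 * l5 + l6
    · refine sub_eq_zero.mp ((mul_eq_zero.mp ?_).resolve_left (hF.ne 6 0 0 0 0))
      linear_combination 31617792 * l1 - 2271360 * l2 - 885960 * l3 + 22712 * l4 + 63 * l5 - l6
    · refine sub_eq_zero.mp ((mul_eq_zero.mp ?_).resolve_left (hF.ne 6 2 0 0 0))
      linear_combination 1075017024 * l1 - 77226368 * l2 - 30122424 * l3 + 772216 * l4 + 2331 * l5 - 29 * l6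
    · refine sub_eq_zero.mp ((mul_eq_zero.mp ?_).resolve_left (hF.ne 6 4 0 0 0))
      linear_combination 2845622016 * l1 - 204419072 * l2 - 79734456 * l3 + 2044072 * l4 + 6075 * l5 - 53 * l6
    · refine sub_eq_zero.mp ((mul_eq_zero.mp ?_).resolve_left (hF.ne 5 4 0 0 0))
      linear_combination -616548672 * l1 + 44292256 * l2 + 17276328 * l3 - 442880 * l4 - 1377 * l5 + 19 * l6
    · refine sub_eq_zero.mp ((mul_eq_zero.mp ?_).resolve_left (hF.ne 5 4 0 0 0))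
      linear_combination -426850560 * l1 + 30662720 * l2 + 11960136 * l3 - 306616 * l4 - 891 * l5 + 5 * l6
    · refine sub_eq_zero.mp ((mul_eq_zero.mp ?_).resolve_left (hF.ne 0 0 0 0 0))
      linear_combination l1
    · ring
  subst e0 e1 e2 e3 e4 e5 e6 e7
  have tP1 : (-128 * v) ≠ 0 := fun h0 => z1 (by linear_combination h0)
  have tPm3 : (-9216 * u + 8064 * v) ≠ 0 := fun h0 => y3 (by linear_combination h0)
  have key : ((2 : F) ^ 0 * 3 ^ 0 * 5 ^ 2 * 7 ^ 0 * 11 ^ 0) * ((-128 * v) * (-9216 * u + 8064 * v)) = 0 := by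
    linear_combination (-12) * q2
  exact mul_ne_zero (hF.ne _ _ _ _ _) (mul_ne_zero tP1 tPm3) key

theorem c7_3_1 {F : Type*} [Field F] (hF : Big F) {a0 a1 a2 a3 a4 a5 a6 a7 : F}
    (h : Sys7 (2 : F) 1 (-3) a0 a1 a2 a3 a4 a5 a6 a7) : False := by
  obtain ⟨z7, z0, z1, y1, z3, y3, l1, l2, l3, l4, l5, l6, q1, q2, q3⟩ := h
  obtain ⟨u, v, e0, e1, e2, e3, e4, e5, e6, e7⟩ : ∃ u v : F, a0 = u - 5 * v ∧ a1 = -2 * u + 10 * v ∧ a2 = -10 * u - 4 * v ∧ a3 = -8 * u + v ∧ a4 = u - 5 * v ∧ a5 = 2 * u + 4 * v ∧ a6 = -2 * v ∧ a7 = 0 + v := by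
    refine ⟨a0 + 5 * a7, a7, ?_, ?_, ?_, ?_, ?_, ?_, ?_, ?_⟩
    · ring
    · refine sub_eq_zero.mp ((mul_eq_zero.mp ?_).resolve_left (hF.ne 0 0 0 0 0))
      linear_combination l2
    · refine sub_eq_zero.mp ((mul_eq_zero.mp ?_).resolve_left (hF.ne 6 1 0 0 0))
      linear_combination 1728 * l1 + 768 * l2 + 54 * l3 + 2 * l4 + 81 * l5 + l6
    · refine sub_eq_zero.mp ((mul_eq_zero.mp ?_).resolve_left (hF.ne 6 3 0 0 0))
      linear_combination 20736 * l1 + 9344 * l2 + 1296 * l3 + 8 * l4 + 567 * l5 + 23 * l6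
    · refine sub_eq_zero.mp ((mul_eq_zero.mp ?_).resolve_left (hF.ne 6 3 0 0 0))
      linear_combination -3456 * l1 - 256 * l2 + 54 * l3 + 2 * l4 - 81 * l5 - l6
    · refine sub_eq_zero.mp ((mul_eq_zero.mp ?_).resolve_left (hF.ne 6 3 0 0 0))
      linear_combination -6912 * l1 - 2368 * l2 - 324 * l3 - 4 * l4 - 135 * l5 - 7 * l6
    · refine sub_eq_zero.mp ((mul_eq_zero.mp ?_).resolve_left (hF.ne 0 0 0 0 0))
      linear_combination l1
    · ring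
  subst e0 e1 e2 e3 e4 e5 e6 e7
  have tPm1 : (-32 * v) ≠ 0 := fun h0 => y1 (by linear_combination h0)
  have key : ((2 : F) ^ 3 * 3 ^ 0 * 5 ^ 1 * 7 ^ 0 * 11 ^ 1) * ((-32 * v) * (-32 * v)) = 0 := by
    linear_combination (-256) * q1 + (-3) * q2 + (1) * q3
  exact mul_ne_zero (hF.ne _ _ _ _ _) (mul_ne_zero tPm1 tPm1) key

theorem c7_3_2 {F : Type*} [Field F] (hF : Big F) {a0 a1 a2 a3 a4 a5 a6 a7 : F}
    (h : Sys7 (1 : F) 2 (-3) a0 a1 a2 a3 a4 a5 a6 a7) : False := by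
  obtain ⟨z7, z0, z1, y1, z3, y3, l1, l2, l3, l4, l5, l6, q1, q2, q3⟩ := h
  obtain ⟨u, v, e0, e1, e2, e3, e4, e5, e6, e7⟩ : ∃ u v : F, a0 = 3 * u + 33 * v ∧ a1 = -3 * u - 33 * v ∧ a2 = -5 * u - 136 * v ∧ a3 = 5 * u - 176 * v ∧ a4 = u + 17 * v ∧ a5 = -u + 39 * v ∧ a6 = u + 6 * v ∧ a7 = -u - 6 * v := by
    refine ⟨2910 * a0 - 536 * a3 - 10337 * a4 - 897 * a5 - 3391 * a7, -266 * a0 + 49 * a3 + 945 * a4 + 82 * a5 + 310 * a7, ?_, ?_, ?_, ?_, ?_, ?_, ?_, ?_⟩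
    · refine sub_eq_zero.mp ((mul_eq_zero.mp ?_).resolve_left (hF.ne 2 0 0 0 0))
      linear_combination 1584 * l1 - 308 * l2 - 57 * l3 - l4
    · refine sub_eq_zero.mp ((mul_eq_zero.mp ?_).resolve_left (hF.ne 2 0 0 0 0))
      linear_combination -1584 * l1 + 312 * l2 + 57 * l3 + l4
    · refine sub_eq_zero.mp ((mul_eq_zero.mp ?_).resolve_left (hF.ne 6 0 0 0 0))
      linear_combination -11191872 * l1 + 2176704 * l2 + 402776 * l3 + 7064 * l4 + 63 * l5 - l6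
    · refine sub_eq_zero.mp ((mul_eq_zero.mp ?_).resolve_left (hF.ne 6 3 0 0 0))
      linear_combination -857361024 * l1 + 166760512 * l2 + 30857544 * l3 + 541144 * l4 + 4617 * l5 - 47 * l6
    · refine sub_eq_zero.mp ((mul_eq_zero.mp ?_).resolve_left (hF.ne 6 3 0 0 0))
      linear_combination 22522752 * l1 - 4380992 * l2 - 810648 * l3 - 14216 * l4 - 135 * l5 + l6
    · refine sub_eq_zero.mp ((mul_eq_zero.mp ?_).resolve_left (hF.ne 6 1 0 0 0))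
      linear_combination 20621568 * l1 - 4011008 * l2 - 742200 * l3 - 13016 * l4 - 111 * l5 + l6
    · refine sub_eq_zero.mp ((mul_eq_zero.mp ?_).resolve_left (hF.ne 5 3 0 0 0))
      linear_combination -9176544 * l1 + 1784672 * l2 + 330264 * l3 + 5792 * l4 + 27 * l5 - l6
    · refine sub_eq_zero.mp ((mul_eq_zero.mp ?_).resolve_left (hF.ne 5 3 0 0 0))
      linear_combination 9177408 * l1 - 1784672 * l2 - 330264 * l3 - 5792 * l4 - 27 * l5 + l6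
  subst e0 e1 e2 e3 e4 e5 e6 e7
  have tP1 : (-256 * v) ≠ 0 := fun h0 => z1 (by linear_combination h0)
  have tPm1 : (96 * v) ≠ 0 := fun h0 => y1 (by linear_combination h0)
  have key : ((2 : F) ^ 2 * 3 ^ 0 * 5 ^ 1 * 7 ^ 0 * 11 ^ 0) * ((-256 * v) * (96 * v)) = 0 := by
    linear_combination (51712) * q1 + (98) * q2 + (-141) * q3
  exact mul_ne_zero (hF.ne _ _ _ _ _) (mul_ne_zero tP1 tPm1) key

theorem c7_3_3 {F : Type*} [Field F] (hF : Big F) {a0 a1 a2 a3 a4 a5 a6 a7 : F}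
    (h : Sys7 (0 : F) 3 (-3) a0 a1 a2 a3 a4 a5 a6 a7) : False := by
  obtain ⟨z7, z0, z1, y1, z3, y3, l1, l2, l3, l4, l5, l6, q1, q2, q3⟩ := h
  obtain ⟨u, v, w, e0, e1, e2, e3, e4, e5, e6, e7⟩ : ∃ u v w : F, a0 = -9 * v ∧ a1 = 0 ∧ a2 = 30 * v ∧ a3 = -5 * u - 9 * w ∧ a4 = -5 * v ∧ a5 = 0 + u ∧ a6 = 0 ∧ a7 = 0 + w := by
    refine ⟨a5, 6 * a0 + 2 * a3 - 11 * a4 + 10 * a5 + 18 * a7, a7, ?_, ?_, ?_, ?_, ?_, ?_, ?_, ?_⟩
    · refine sub_eq_zero.mp ((mul_eq_zero.mp ?_).resolve_left (hF.ne 6 0 0 0 0))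
      linear_combination 21120 * l1 - 2176 * l2 - 339 * l3 - 11 * l4 + 24 * l5
    · refine sub_eq_zero.mp ((mul_eq_zero.mp ?_).resolve_left (hF.ne 0 0 0 0 0))
      linear_combination l2
    · refine sub_eq_zero.mp ((mul_eq_zero.mp ?_).resolve_left (hF.ne 6 0 0 0 0))
      linear_combination -70592 * l1 + 7424 * l2 + 1133 * l3 + 37 * l4 - 56 * l5
    · refine sub_eq_zero.mp ((mul_eq_zero.mp ?_).resolve_left (hF.ne 2 0 0 0 0))
      linear_combination 12 * l2 + l3 + l5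
    · refine sub_eq_zero.mp ((mul_eq_zero.mp ?_).resolve_left (hF.ne 5 0 0 0 0))
      linear_combination 5760 * l1 - 576 * l2 - 91 * l3 - 3 * l4 + 8 * l5
    · ring
    · refine sub_eq_zero.mp ((mul_eq_zero.mp ?_).resolve_left (hF.ne 0 0 0 0 0))
      linear_combination l1
    · ring
  subst e0 e1 e2 e3 e4 e5 e6 e7
  have tP0 : (-9 * v) ≠ 0 := fun h0 => z0 (by linear_combination h0)
  have ta7 : (w) ≠ 0 := fun h0 => z7 (by linear_combination h0)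
  have key : ((2 : F) ^ 11 * 3 ^ 0 * 5 ^ 1 * 7 ^ 0 * 11 ^ 1) * ((-9 * v) * (w)) = 0 := by
    linear_combination (960) * q1 + (3) * q2 + (-3) * q3
  exact mul_ne_zero (hF.ne _ _ _ _ _) (mul_ne_zero tP0 ta7) key

theorem c7_4_0 {F : Type*} [Field F] (hF : Big F) {a0 a1 a2 a3 a4 a5 a6 a7 : F}
    (h : Sys7 (4 : F) 0 (-4) a0 a1 a2 a3 a4 a5 a6 a7) : False := by
  obtain ⟨z7, z0, z1, y1, z3, y3, l1, l2, l3, l4, l5, l6, q1, q2, q3⟩ := h
  obtain ⟨u, v, e0, e1, e2, e3, e4, e5, e6, e7⟩ : ∃ u v : F, a0 = -5 * u + 24 * v ∧ a1 = 20 * u - 96 * v ∧ a2 = -34 * u - 204 * v ∧ a3 = 33 * u - 105 * v ∧ a4 = -21 * u + 48 * v ∧ a5 = 10 * u + 10 * v ∧ a6 = -4 * u + 4 * v ∧ a7 = u - v := by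
    refine ⟨-1209 * a0 - 2821 * a3 - 2220 * a4 - 6010 * a5 + 100529 * a7, -1209 * a0 - 2821 * a3 - 2220 * a4 - 6010 * a5 + 100528 * a7, ?_, ?_, ?_, ?_, ?_, ?_, ?_, ?_⟩
    · refine sub_eq_zero.mp ((mul_eq_zero.mp ?_).resolve_left (hF.ne 4 3 0 0 0))
      linear_combination -116747136 * l1 + 8374912 * l2 + 3276801 * l3 - 83651 * l4 - 4779 * l5 + l6
    · refine sub_eq_zero.mp ((mul_eq_zero.mp ?_).resolve_left (hF.ne 2 3 0 0 0))
      linear_combination 116747136 * l1 - 8374804 * l2 - 3276801 * l3 + 83651 * l4 + 4779 * l5 - l6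
    · refine sub_eq_zero.mp ((mul_eq_zero.mp ?_).resolve_left (hF.ne 4 3 0 1 0))
      linear_combination 10236927312 * l1 - 734338816 * l2 - 287322903 * l3 + 7334897 * l4 + 419823 * l5 - 73 * l6
    · refine sub_eq_zero.mp ((mul_eq_zero.mp ?_).resolve_left (hF.ne 4 3 0 1 0))
      linear_combination 3096880128 * l1 - 222151456 * l2 - 86920533 * l3 + 2218943 * l4 + 126927 * l5 - 13 * l6
    · refine sub_eq_zero.mp ((mul_eq_zero.mp ?_).resolve_left (hF.ne 3 3 0 1 0))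
      linear_combination -580662864 * l1 + 41653952 * l2 + 16297848 * l3 - 416050 * l4 - 23841 * l5 + 5 * l6
    · refine sub_eq_zero.mp ((mul_eq_zero.mp ?_).resolve_left (hF.ne 4 3 0 1 0))
      linear_combination -860253696 * l1 + 61708624 * l2 + 24144561 * l3 - 616379 * l4 - 35235 * l5 + l6
    · refine sub_eq_zero.mp ((mul_eq_zero.mp ?_).resolve_left (hF.ne 0 0 0 0 0))
      linear_combination l1
    · ring
  subst e0 e1 e2 e3 e4 e5 e6 e7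
  have tP1 : (-320 * v) ≠ 0 := fun h0 => z1 (by linear_combination h0)
  have tPm3 : (-10496 * u + 7872 * v) ≠ 0 := fun h0 => y3 (by linear_combination h0)
  have key : ((2 : F) ^ 0 * 3 ^ 0 * 5 ^ 0 * 7 ^ 0 * 11 ^ 0) * ((-320 * v) * (-10496 * u + 7872 * v)) = 0 := by
    linear_combination (167936) * q1 + (820) * q2 + (-1312) * q3
  exact mul_ne_zero (hF.ne _ _ _ _ _) (mul_ne_zero tP1 tPm3) key

theorem c7_4_1 {F : Type*} [Field F] (hF : Big F) {a0 a1 a2 a3 a4 a5 a6 a7 : F}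
    (h : Sys7 (3 : F) 1 (-4) a0 a1 a2 a3 a4 a5 a6 a7) : False := by
  obtain ⟨z7, z0, z1, y1, z3, y3, l1, l2, l3, l4, l5, l6, q1, q2, q3⟩ := h
  obtain ⟨u, v, e0, e1, e2, e3, e4, e5, e6, e7⟩ : ∃ u v : F, a0 = 3 * u + 42 * v ∧ a1 = -9 * u - 126 * v ∧ a2 = -38 * u + 89 * v ∧ a3 = -30 * u - 99 * v ∧ a4 = 3 * u + 48 * v ∧ a5 = 7 * u - 48 * v ∧ a6 = 45 * v ∧ a7 = -15 * v := by
    refine ⟨4932 * a0 + 1233 * a2 + 10425 * a4 + 112 * a5 + 54127 * a7, -352 * a0 - 88 * a2 - 744 * a4 - 8 * a5 - 3863 * a7, ?_, ?_, ?_, ?_, ?_, ?_, ?_, ?_⟩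
    · refine sub_eq_zero.mp ((mul_eq_zero.mp ?_).resolve_left (hF.ne 4 0 0 0 0))
      linear_combination 432 * l1 - 128 * l2 - 27 * l3 - l4
    · refine sub_eq_zero.mp ((mul_eq_zero.mp ?_).resolve_left (hF.ne 4 0 0 0 0))
      linear_combination -1296 * l1 + 400 * l2 + 81 * l3 + 3 * l4
    · refine sub_eq_zero.mp ((mul_eq_zero.mp ?_).resolve_left (hF.ne 5 1 0 0 0))
      linear_combination -43432416 * l1 + 13859840 * l2 + 2794095 * l3 + 104147 * l4 + 85482 * l5 + 74 * l6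
    · refine sub_eq_zero.mp ((mul_eq_zero.mp ?_).resolve_left (hF.ne 4 3 0 0 0))
      linear_combination -101064672 * l1 + 32252128 * l2 + 6502032 * l3 + 242347 * l4 + 198855 * l5 + 175 * l6
    · refine sub_eq_zero.mp ((mul_eq_zero.mp ?_).resolve_left (hF.ne 5 2 0 0 0))
      linear_combination -1250784 * l1 + 399104 * l2 + 80451 * l3 + 2999 * l4 + 2466 * l5 + 2 * l6
    · refine sub_eq_zero.mp ((mul_eq_zero.mp ?_).resolve_left (hF.ne 4 3 0 0 0))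
      linear_combination 45941904 * l1 - 14661136 * l2 - 2955636 * l3 - 110167 * l4 - 90423 * l5 - 79 * l6
    · refine sub_eq_zero.mp ((mul_eq_zero.mp ?_).resolve_left (hF.ne 1 2 0 0 0))
      linear_combination -589662 * l1 + 188176 * l2 + 37935 * l3 + 1414 * l4 + 1161 * l5 + l6
    · refine sub_eq_zero.mp ((mul_eq_zero.mp ?_).resolve_left (hF.ne 1 3 0 0 0))
      linear_combination 589680 * l1 - 188176 * l2 - 37935 * l3 - 1414 * l4 - 1161 * l5 - l6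
  subst e0 e1 e2 e3 e4 e5 e6 e7
  have tPm3 : (-960 * u + 85056 * v) ≠ 0 := fun h0 => y3 (by linear_combination h0)
  have key : ((2 : F) ^ 0 * 3 ^ 2 * 5 ^ 2 * 7 ^ 1 * 11 ^ 0) * ((-960 * u + 85056 * v) * (-960 * u + 85056 * v)) = 0 := by
    linear_combination (6409696) * q1 + (-95707) * q2 + (-24616) * q3
  exact mul_ne_zero (hF.ne _ _ _ _ _) (mul_ne_zero tPm3 tPm3) key

theorem c7_4_2 {F : Type*} [Field F] (hF : Big F) {a0 a1 a2 a3 a4 a5 a6 a7 : F}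
    (h : Sys7 (2 : F) 2 (-4) a0 a1 a2 a3 a4 a5 a6 a7) : False := by
  obtain ⟨z7, z0, z1, y1, z3, y3, l1, l2, l3, l4, l5, l6, q1, q2, q3⟩ := h
  obtain ⟨u, v, e0, e1, e2, e3, e4, e5, e6, e7⟩ : ∃ u v : F, a0 = 15 * u + 24 * v ∧ a1 = -30 * u - 48 * v ∧ a2 = -14 * u + 46 * v ∧ a3 = -32 * u + 81 * v ∧ a4 = -25 * u - 52 * v ∧ a5 = 10 * u - 10 * v ∧ a6 = 24 * u + 46 * v ∧ a7 = -12 * u - 23 * v := by
    refine ⟨3558 * a0 + 1186 * a3 + 15495 * a4 + 3039 * a5 - 28464 * a7, 2865 * a0 + 955 * a3 + 12477 * a4 + 2447 * a5 - 22920 * a7, ?_, ?_, ?_, ?_, ?_, ?_, ?_, ?_⟩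
    · refine sub_eq_zero.mp ((mul_eq_zero.mp ?_).resolve_left (hF.ne 3 1 0 0 0))
      linear_combination 28900080 * l1 - 6163448 * l2 - 1103688 * l3 - 17546 * l4 - 34497 * l5 + l6
    · refine sub_eq_zero.mp ((mul_eq_zero.mp ?_).resolve_left (hF.ne 2 1 0 0 0))
      linear_combination -28900080 * l1 + 6163460 * l2 + 1103688 * l3 + 17546 * l4 + 34497 * l5 - l6
    · refine sub_eq_zero.mp ((mul_eq_zero.mp ?_).resolve_left (hF.ne 4 1 0 0 0))
      linear_combination 38797104 * l1 - 8274368 * l2 - 1481691 * l3 - 23555 * l4 - 46311 * l5 + l6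
    · refine sub_eq_zero.mp ((mul_eq_zero.mp ?_).resolve_left (hF.ne 3 3 0 0 0))
      linear_combination 251749296 * l1 - 53690248 * l2 - 9614295 * l3 - 152845 * l4 - 300510 * l5 + 8 * l6
    · refine sub_eq_zero.mp ((mul_eq_zero.mp ?_).resolve_left (hF.ne 4 4 0 0 0))
      linear_combination -3040322688 * l1 + 648403952 * l2 + 116109531 * l3 + 1845863 * l4 + 3629205 * l5 - 103 * l6
    · refine sub_eq_zero.mp ((mul_eq_zero.mp ?_).resolve_left (hF.ne 4 3 0 0 0))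
      linear_combination 29517696 * l1 - 6295184 * l2 - 1127277 * l3 - 17921 * l4 - 35235 * l5 + l6
    · refine sub_eq_zero.mp ((mul_eq_zero.mp ?_).resolve_left (hF.ne 3 4 0 0 0))
      linear_combination 1387599336 * l1 - 295930672 * l2 - 52992225 * l3 - 842449 * l4 - 1656369 * l5 + 47 * l6
    · refine sub_eq_zero.mp ((mul_eq_zero.mp ?_).resolve_left (hF.ne 4 4 0 0 0))
      linear_combination -1387598688 * l1 + 295930672 * l2 + 52992225 * l3 + 842449 * l4 + 1656369 * l5 - 47 * l6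
  subst e0 e1 e2 e3 e4 e5 e6 e7
  have tP1 : (-64 * u + 64 * v) ≠ 0 := fun h0 => z1 (by linear_combination h0)
  have ta7 : (-12 * u - 23 * v) ≠ 0 := fun h0 => z7 (by linear_combination h0)
  have key : ((2 : F) ^ 0 * 3 ^ 0 * 5 ^ 1 * 7 ^ 0 * 11 ^ 0) * ((-64 * u + 64 * v) * (-64 * u + 64 * v) * (-12 * u - 23 * v)) = 0 := by
    linear_combination (-77823740765200517613161252749181440 * u - 71242065135784496510591187501022208 * v) * q1 + (14939214188416030008308502331600 * u - 12264253808854109977145281871312 * v) * q2 + (122589007323911812175911366731216 * u + 69282853608977038116633126527812 * v) * q3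
  exact mul_ne_zero (hF.ne _ _ _ _ _) (mul_ne_zero (mul_ne_zero tP1 tP1) ta7) key

theorem c7_4_3 {F : Type*} [Field F] (hF : Big F) {a0 a1 a2 a3 a4 a5 a6 a7 : F}
    (h : Sys7 (1 : F) 3 (-4) a0 a1 a2 a3 a4 a5 a6 a7) : False := by
  obtain ⟨z7, z0, z1, y1, z3, y3, l1, l2, l3, l4, l5, l6, q1, q2, q3⟩ := h
  obtain ⟨u, v, e0, e1, e2, e3, e4, e5, e6, e7⟩ : ∃ u v : F, a0 = u + 10 * v ∧ a1 = -u - 10 * v ∧ a2 = -3 * u - 57 * v ∧ a3 = 3 * u - 135 * v ∧ a4 = 3 * u + 48 * v ∧ a5 = -3 * u - 16 * v ∧ a6 = -u - 17 * v ∧ a7 = u + 17 * v := by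
    refine ⟨17 * a0 - 34 * a4 + 86 * a7, -a0 + 2 * a4 - 5 * a7, ?_, ?_, ?_, ?_, ?_, ?_, ?_, ?_⟩
    · refine sub_eq_zero.mp ((mul_eq_zero.mp ?_).resolve_left (hF.ne 5 3 0 0 0))
      linear_combination -44928 * l1 + 1024 * l2 + 405 * l3 + 13 * l4 - 216 * l5 - 8 * l6
    · refine sub_eq_zero.mp ((mul_eq_zero.mp ?_).resolve_left (hF.ne 5 3 0 0 0))
      linear_combination 44928 * l1 - 160 * l2 - 405 * l3 - 13 * l4 + 216 * l5 + 8 * l6
    · refine sub_eq_zero.mp ((mul_eq_zero.mp ?_).resolve_left (hF.ne 6 2 0 0 0))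
      linear_combination -29376 * l1 - 2048 * l2 - 81 * l3 + 7 * l4 - 216 * l5 - 8 * l6
    · refine sub_eq_zero.mp ((mul_eq_zero.mp ?_).resolve_left (hF.ne 6 3 0 0 0))
      linear_combination -2426112 * l1 + 1664 * l2 + 17091 * l3 + 659 * l4 - 14904 * l5 - 472 * l6
    · refine sub_eq_zero.mp ((mul_eq_zero.mp ?_).resolve_left (hF.ne 6 3 0 0 0))
      linear_combination -44928 * l1 + 1024 * l2 + 405 * l3 + 13 * l4 - 216 * l5 - 8 * l6
    · refine sub_eq_zero.mp ((mul_eq_zero.mp ?_).resolve_left (hF.ne 6 3 0 0 0))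
      linear_combination 456192 * l1 - 320 * l2 - 3213 * l3 - 125 * l4 + 2808 * l5 + 88 * l6
    · refine sub_eq_zero.mp ((mul_eq_zero.mp ?_).resolve_left (hF.ne 0 0 0 0 0))
      linear_combination l1
    · ring
  subst e0 e1 e2 e3 e4 e5 e6 e7
  have tP1 : (-160 * v) ≠ 0 := fun h0 => z1 (by linear_combination h0)
  have tPm1 : (128 * v) ≠ 0 := fun h0 => y1 (by linear_combination h0)
  have key : ((2 : F) ^ 0 * 3 ^ 0 * 5 ^ 0 * 7 ^ 0 * 11 ^ 0) * ((-160 * v) * (128 * v)) = 0 := by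
    linear_combination (-1199424) * q1 + (273) * q2 + (775) * q3
  exact mul_ne_zero (hF.ne _ _ _ _ _) (mul_ne_zero tP1 tPm1) key

theorem c7_5_0 {F : Type*} [Field F] (hF : Big F) {a0 a1 a2 a3 a4 a5 a6 a7 : F}
    (h : Sys7 (5 : F) 0 (-5) a0 a1 a2 a3 a4 a5 a6 a7) : False := by
  obtain ⟨z7, z0, z1, y1, z3, y3, l1, l2, l3, l4, l5, l6, q1, q2, q3⟩ := h
  obtain ⟨u, v, e0, e1, e2, e3, e4, e5, e6, e7⟩ : ∃ u v : F, a0 = -3 * u - 45 * v ∧ a1 = 15 * u + 225 * v ∧ a2 = -31 * u + 480 * v ∧ a3 = 35 * u + 240 * v ∧ a4 = -25 * u - 105 * v ∧ a5 = 13 * u - 19 * v ∧ a6 = -5 * u - 10 * v ∧ a7 = u + 2 * v := by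
    refine ⟨16853 * a0 + 21375 * a3 + 16853 * a4 + 45546 * a5 - 868338 * a7, -4599 * a0 - 5833 * a3 - 4599 * a4 - 12429 * a5 + 236960 * a7, ?_, ?_, ?_, ?_, ?_, ?_, ?_, ?_⟩
    · refine sub_eq_zero.mp ((mul_eq_zero.mp ?_).resolve_left (hF.ne 6 2 0 0 0))
      linear_combination 575690112 * l1 - 41306432 * l2 - 16176564 * l3 + 411988 * l4 + 27405 * l5 + 7 * l6
    · refine sub_eq_zero.mp ((mul_eq_zero.mp ?_).resolve_left (hF.ne 6 2 0 0 0))
      linear_combination -2878450560 * l1 + 206532736 * l2 + 80882820 * l3 - 2059940 * l4 - 137025 * l5 - 35 * l6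
    · refine sub_eq_zero.mp ((mul_eq_zero.mp ?_).resolve_left (hF.ne 6 3 0 0 0))
      linear_combination -30146783040 * l1 + 2163073408 * l2 + 847108476 * l3 - 21574316 * l4 - 1434645 * l5 - 359 * l6
    · refine sub_eq_zero.mp ((mul_eq_zero.mp ?_).resolve_left (hF.ne 4 3 0 0 0))
      linear_combination -1418752800 * l1 + 101797664 * l2 + 39866283 * l3 - 1015321 * l4 - 67527 * l5 - 16 * l6
    · refine sub_eq_zero.mp ((mul_eq_zero.mp ?_).resolve_left (hF.ne 6 1 0 0 0))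
      linear_combination 75545856 * l1 - 5420480 * l2 - 2122776 * l3 + 54064 * l4 + 3591 * l5 + l6
    · refine sub_eq_zero.mp ((mul_eq_zero.mp ?_).resolve_left (hF.ne 5 3 0 0 0))
      linear_combination 1692161280 * l1 - 121415168 * l2 - 47548944 * l3 + 1210984 * l4 + 80541 * l5 + 19 * l6
    · refine sub_eq_zero.mp ((mul_eq_zero.mp ?_).resolve_left (hF.ne 6 3 0 0 0))
      linear_combination -422667072 * l1 + 30327040 * l2 + 11876760 * l3 - 302480 * l4 - 20115 * l5 - 5 * l6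
    · refine sub_eq_zero.mp ((mul_eq_zero.mp ?_).resolve_left (hF.ne 6 3 0 0 0))
      linear_combination 84533760 * l1 - 6065408 * l2 - 2375352 * l3 + 60496 * l4 + 4023 * l5 + l6
  subst e0 e1 e2 e3 e4 e5 e6 e7
  have tP1 : (768 * v) ≠ 0 := fun h0 => z1 (by linear_combination h0)
  have tPm3 : (-12288 * u - 18432 * v) ≠ 0 := fun h0 => y3 (by linear_combination h0)
  have key : ((2 : F) ^ 0 * 3 ^ 0 * 5 ^ 2 * 7 ^ 0 * 11 ^ 0) * ((768 * v) * (-12288 * u - 18432 * v)) = 0 := by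
    linear_combination (3072) * q1 + (-24) * q3
  exact mul_ne_zero (hF.ne _ _ _ _ _) (mul_ne_zero tP1 tPm3) key

theorem c7_5_1 {F : Type*} [Field F] (hF : Big F) {a0 a1 a2 a3 a4 a5 a6 a7 : F}
    (h : Sys7 (4 : F) 1 (-5) a0 a1 a2 a3 a4 a5 a6 a7) : False := by
  obtain ⟨z7, z0, z1, y1, z3, y3, l1, l2, l3, l4, l5, l6, q1, q2, q3⟩ := h
  obtain ⟨u, v, e0, e1, e2, e3, e4, e5, e6, e7⟩ : ∃ u v : F, a0 = -3 * u - 3 * v ∧ a1 = 12 * u + 12 * v ∧ a2 = 10 * u - 26 * v ∧ a3 = 17 * u - 2 * v ∧ a4 = -3 * u - 3 * v ∧ a5 = 2 * u + 12 * v ∧ a6 = -4 * u - 8 * v ∧ a7 = u + 2 * v := by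
    refine ⟨12 * a0 + 2 * a2 + 18 * a4 + 71 * a7, -6 * a0 - a2 - 9 * a4 - 35 * a7, ?_, ?_, ?_, ?_, ?_, ?_, ?_, ?_⟩
    · refine sub_eq_zero.mp ((mul_eq_zero.mp ?_).resolve_left (hF.ne 4 0 0 0 0))
      linear_combination -432 * l1 + 128 * l2 + 27 * l3 + l4
    · refine sub_eq_zero.mp ((mul_eq_zero.mp ?_).resolve_left (hF.ne 2 0 0 0 0))
      linear_combination 432 * l1 - 124 * l2 - 27 * l3 - l4
    · refine sub_eq_zero.mp ((mul_eq_zero.mp ?_).resolve_left (hF.ne 5 2 0 0 0))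
      linear_combination 121824 * l1 - 34304 * l2 - 7371 * l3 - 275 * l4 + 81 * l5 + l6
    · refine sub_eq_zero.mp ((mul_eq_zero.mp ?_).resolve_left (hF.ne 5 4 0 0 0))
      linear_combination 870912 * l1 - 239296 * l2 - 51030 * l3 - 1948 * l4 + 405 * l5 + 17 * l6
    · refine sub_eq_zero.mp ((mul_eq_zero.mp ?_).resolve_left (hF.ne 5 4 0 0 0))
      linear_combination -75168 * l1 + 20480 * l2 + 4455 * l3 + 167 * l4 - 81 * l5 - l6
    · refine sub_eq_zero.mp ((mul_eq_zero.mp ?_).resolve_left (hF.ne 5 4 0 0 0))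
      linear_combination -196992 * l1 + 53152 * l2 + 11340 * l3 + 430 * l4 - 81 * l5 - 5 * l6
    · refine sub_eq_zero.mp ((mul_eq_zero.mp ?_).resolve_left (hF.ne 0 0 0 0 0))
      linear_combination l1
    · ring
  subst e0 e1 e2 e3 e4 e5 e6 e7
  have tP0 : (-3 * u - 3 * v) ≠ 0 := fun h0 => z0 (by linear_combination h0)
  have tPm1 : (-32 * u - 64 * v) ≠ 0 := fun h0 => y1 (by linear_combination h0)
  have key : ((2 : F) ^ 8 * 3 ^ 0 * 5 ^ 2 * 7 ^ 0 * 11 ^ 1) * ((-3 * u - 3 * v) * (-32 * u - 64 * v)) = 0 := by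
    linear_combination (-768) * q1 + (-6) * q2 + (3) * q3
  exact mul_ne_zero (hF.ne _ _ _ _ _) (mul_ne_zero tP0 tPm1) key

theorem c7_5_2 {F : Type*} [Field F] (hF : Big F) {a0 a1 a2 a3 a4 a5 a6 a7 : F}
    (h : Sys7 (3 : F) 2 (-5) a0 a1 a2 a3 a4 a5 a6 a7) : False := by
  obtain ⟨z7, z0, z1, y1, z3, y3, l1, l2, l3, l4, l5, l6, q1, q2, q3⟩ := h
  obtain ⟨u, v, e0, e1, e2, e3, e4, e5, e6, e7⟩ : ∃ u v : F, a0 = -u - 5 * v ∧ a1 = 3 * u + 15 * v ∧ a2 = -u + 22 * v ∧ a3 = -5 * u + 26 * v ∧ a4 = 5 * u + 19 * v ∧ a5 = u - 5 * v ∧ a6 = -3 * u - 12 * v ∧ a7 = u + 4 * v := by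
    refine ⟨-23 * a0 - 2 * a3 - 38 * a4 - 3 * a5 + 161 * a7, 35 * a0 + 3 * a3 + 57 * a4 + 5 * a5 - 240 * a7, ?_, ?_, ?_, ?_, ?_, ?_, ?_, ?_⟩
    · refine sub_eq_zero.mp ((mul_eq_zero.mp ?_).resolve_left (hF.ne 6 3 1 0 0))
      linear_combination -4831488 * l1 + 957568 * l2 + 176256 * l3 + 3064 * l4 + 675 * l5 + 13 * l6
    · refine sub_eq_zero.mp ((mul_eq_zero.mp ?_).resolve_left (hF.ne 6 2 1 0 0))
      linear_combination 4831488 * l1 - 954688 * l2 - 176256 * l3 - 3064 * l4 - 675 * l5 - 13 * l6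
    · refine sub_eq_zero.mp ((mul_eq_zero.mp ?_).resolve_left (hF.ne 6 3 1 0 0))
      linear_combination 25261632 * l1 - 4995392 * l2 - 922104 * l3 - 16016 * l4 - 1755 * l5 - 77 * l6
    · refine sub_eq_zero.mp ((mul_eq_zero.mp ?_).resolve_left (hF.ne 4 2 0 0 0))
      linear_combination 546048 * l1 - 107440 * l2 - 19818 * l3 - 346 * l4 - 45 * l5 - l6
    · refine sub_eq_zero.mp ((mul_eq_zero.mp ?_).resolve_left (hF.ne 6 3 0 0 0))
      linear_combination 3494016 * l1 - 689920 * l2 - 127116 * l3 - 2212 * l4 - 405 * l5 - 7 * l6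
    · refine sub_eq_zero.mp ((mul_eq_zero.mp ?_).resolve_left (hF.ne 4 3 1 0 0))
      linear_combination -1583712 * l1 + 311312 * l2 + 57429 * l3 + 1001 * l4 + 135 * l5 + 2 * l6
    · refine sub_eq_zero.mp ((mul_eq_zero.mp ?_).resolve_left (hF.ne 6 2 1 0 0))
      linear_combination -3719232 * l1 + 734272 * l2 + 135324 * l3 + 2356 * l4 + 405 * l5 + 7 * l6
    · refine sub_eq_zero.mp ((mul_eq_zero.mp ?_).resolve_left (hF.ne 6 3 1 0 0))
      linear_combination 3722112 * l1 - 734272 * l2 - 135324 * l3 - 2356 * l4 - 405 * l5 - 7 * l6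
  subst e0 e1 e2 e3 e4 e5 e6 e7
  have tP1 : (64 * v) ≠ 0 := fun h0 => z1 (by linear_combination h0)
  have tPm1 : (-16 * v) ≠ 0 := fun h0 => y1 (by linear_combination h0)
  have key : ((2 : F) ^ 0 * 3 ^ 0 * 5 ^ 2 * 7 ^ 0 * 11 ^ 0) * ((64 * v) * (-16 * v)) = 0 := by
    linear_combination (-12544) * q1 + (33) * q2 + (25) * q3
  exact mul_ne_zero (hF.ne _ _ _ _ _) (mul_ne_zero tP1 tPm1) key

theorem c7_6_0 {F : Type*} [Field F] (hF : Big F) {a0 a1 a2 a3 a4 a5 a6 a7 : F}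
    (h : Sys7 (6 : F) 0 (-6) a0 a1 a2 a3 a4 a5 a6 a7) : False := by
  obtain ⟨z7, z0, z1, y1, z3, y3, l1, l2, l3, l4, l5, l6, q1, q2, q3⟩ := h
  obtain ⟨u, v, e0, e1, e2, e3, e4, e5, e6, e7⟩ : ∃ u v : F, a0 = -9 * u + 18 * v ∧ a1 = 54 * u - 108 * v ∧ a2 = -132 * u - 330 * v ∧ a3 = 177 * u - 63 * v ∧ a4 = -149 * u - 2 * v ∧ a5 = 84 * u + 42 * v ∧ a6 = -30 * u - 6 * v ∧ a7 = 5 * u + v := by
    refine ⟨7022 * a0 + 6052 * a3 + 4733 * a4 + 12893 * a5 - 277160 * a7, 5936 * a0 + 5116 * a3 + 4001 * a4 + 10899 * a5 - 234295 * a7, ?_, ?_, ?_, ?_, ?_, ?_, ?_, ?_⟩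
    · refine sub_eq_zero.mp ((mul_eq_zero.mp ?_).resolve_left (hF.ne 3 0 0 0 0))
      linear_combination 1518096 * l1 - 109064 * l2 - 42519 * l3 + 1091 * l4 - 6 * l5
    · refine sub_eq_zero.mp ((mul_eq_zero.mp ?_).resolve_left (hF.ne 2 0 0 0 0))
      linear_combination -4554288 * l1 + 327196 * l2 + 127557 * l3 - 3273 * l4 + 18 * l5
    · refine sub_eq_zero.mp ((mul_eq_zero.mp ?_).resolve_left (hF.ne 4 3 0 0 0))
      linear_combination -5419659024 * l1 + 389369440 * l2 + 151796241 * l3 - 3894935 * l4 + 21573 * l5 + 13 * l6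
    · refine sub_eq_zero.mp ((mul_eq_zero.mp ?_).resolve_left (hF.ne 4 5 0 0 0))
      linear_combination 14687023680 * l1 - 1055174368 * l2 - 411361821 * l3 + 10555103 * l4 - 58239 * l5 - 43 * l6
    · refine sub_eq_zero.mp ((mul_eq_zero.mp ?_).resolve_left (hF.ne 4 5 0 0 0))
      linear_combination -17885370240 * l1 + 1284957520 * l2 + 500943285 * l3 - 12853655 * l4 + 70875 * l5 + 55 * l6
    · refine sub_eq_zero.mp ((mul_eq_zero.mp ?_).resolve_left (hF.ne 4 5 0 0 0))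
      linear_combination 14183885376 * l1 - 1019027632 * l2 - 397269765 * l3 + 10193519 * l4 - 56295 * l5 - 43 * l6
    · refine sub_eq_zero.mp ((mul_eq_zero.mp ?_).resolve_left (hF.ne 2 4 0 0 0))
      linear_combination -346889628 * l1 + 24921952 * l2 + 9715869 * l3 - 249299 * l4 + 1377 * l5 + l6
    · refine sub_eq_zero.mp ((mul_eq_zero.mp ?_).resolve_left (hF.ne 3 5 0 0 0))
      linear_combination 346889952 * l1 - 24921952 * l2 - 9715869 * l3 + 249299 * l4 - 1377 * l5 - l6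
  subst e0 e1 e2 e3 e4 e5 e6 e7
  have tP1 : (-448 * v) ≠ 0 := fun h0 => z1 (by linear_combination h0)
  have tPm3 : (-71424 * u - 17856 * v) ≠ 0 := fun h0 => y3 (by linear_combination h0)
  have key : ((2 : F) ^ 0 * 3 ^ 0 * 5 ^ 1 * 7 ^ 0 * 11 ^ 0) * ((-448 * v) * (-71424 * u - 17856 * v)) = 0 := by
    linear_combination (78661632) * q1 + (39060) * q2 + (-614544) * q3
  exact mul_ne_zero (hF.ne _ _ _ _ _) (mul_ne_zero tP1 tPm3) key

theorem c7_6_1 {F : Type*} [Field F] (hF : Big F) {a0 a1 a2 a3 a4 a5 a6 a7 : F}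
    (h : Sys7 (5 : F) 1 (-6) a0 a1 a2 a3 a4 a5 a6 a7) : False := by
  obtain ⟨z7, z0, z1, y1, z3, y3, l1, l2, l3, l4, l5, l6, q1, q2, q3⟩ := h
  obtain ⟨u, v, e0, e1, e2, e3, e4, e5, e6, e7⟩ : ∃ u v : F, a0 = u + 62 * v ∧ a1 = -5 * u - 310 * v ∧ a2 = -18 * u + 99 * v ∧ a3 = -14 * u - 79 * v ∧ a4 = u + 32 * v ∧ a5 = 3 * u - 232 * v ∧ a6 = 175 * v ∧ a7 = -35 * v := by
    refine ⟨1117 * a0 - 3348 * a4 + 744 * a5 - 6014 * a7, -18 * a0 + 54 * a4 - 12 * a5 + 97 * a7, ?_, ?_, ?_, ?_, ?_, ?_, ?_, ?_⟩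
    · ring
    · refine sub_eq_zero.mp ((mul_eq_zero.mp ?_).resolve_left (hF.ne 0 0 0 0 0))
      linear_combination l2
    · refine sub_eq_zero.mp ((mul_eq_zero.mp ?_).resolve_left (hF.ne 5 1 0 0 0))
      linear_combination 6999264 * l1 - 478080 * l2 - 354267 * l3 - 14279 * l4 + 136242 * l5 - 46 * l6
    · refine sub_eq_zero.mp ((mul_eq_zero.mp ?_).resolve_left (hF.ne 4 3 0 0 0))
      linear_combination 20456064 * l1 - 1396576 * l2 - 1035099 * l3 - 41728 * l4 + 398115 * l5 - 133 * l6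
    · refine sub_eq_zero.mp ((mul_eq_zero.mp ?_).resolve_left (hF.ne 5 3 0 0 0))
      linear_combination -1556928 * l1 + 106240 * l2 + 78759 * l3 + 3175 * l4 - 30294 * l5 + 10 * l6
    · refine sub_eq_zero.mp ((mul_eq_zero.mp ?_).resolve_left (hF.ne 4 3 0 0 0))
      linear_combination -10836288 * l1 + 740336 * l2 + 548451 * l3 + 22106 * l4 - 210897 * l5 + 71 * l6
    · refine sub_eq_zero.mp ((mul_eq_zero.mp ?_).resolve_left (hF.ne 4 2 0 0 0))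
      linear_combination 1512144 * l1 - 103360 * l2 - 76545 * l3 - 3085 * l4 + 29430 * l5 - 10 * l6
    · refine sub_eq_zero.mp ((mul_eq_zero.mp ?_).resolve_left (hF.ne 4 2 0 0 0))
      linear_combination -302400 * l1 + 20672 * l2 + 15309 * l3 + 617 * l4 - 5886 * l5 + 2 * l6
  subst e0 e1 e2 e3 e4 e5 e6 e7
  have tPm1 : (1024 * v) ≠ 0 := fun h0 => y1 (by linear_combination h0)
  have ta7 : (-35 * v) ≠ 0 := fun h0 => z7 (by linear_combination h0)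
  have key : ((2 : F) ^ 0 * 3 ^ 0 * 5 ^ 1 * 7 ^ 0 * 11 ^ 0) * ((1024 * v) * (1024 * v) * (-35 * v)) = 0 := by
    linear_combination (-465920 * u + 17411072 * v) * q1 + (-3374 * u - 32984 * v) * q2 + (1820 * u - 141330 * v) * q3
  exact mul_ne_zero (hF.ne _ _ _ _ _) (mul_ne_zero (mul_ne_zero tPm1 tPm1) ta7) key

theorem c7_7_0 {F : Type*} [Field F] (hF : Big F) {a0 a1 a2 a3 a4 a5 a6 a7 : F}
    (h : Sys7 (7 : F) 0 (-7) a0 a1 a2 a3 a4 a5 a6 a7) : False := by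
  obtain ⟨z7, z0, z1, y1, z3, y3, l1, l2, l3, l4, l5, l6, q1, q2, q3⟩ := h
  obtain ⟨u, v, e0, e1, e2, e3, e4, e5, e6, e7⟩ : ∃ u v : F, a0 = u - 5 * v ∧ a1 = -7 * u + 35 * v ∧ a2 = 21 * u + 84 * v ∧ a3 = -35 * u + 28 * v ∧ a4 = 35 * u - 7 * v ∧ a5 = -21 * u - 7 * v ∧ a6 = 7 * u ∧ a7 = -u := by
    refine ⟨35 * a0 + 23 * a3 + 18 * a4 + 49 * a5 - 1170 * a7, 1740 * a0 + 1143 * a3 + 894 * a4 + 2435 * a5 - 58110 * a7, ?_, ?_, ?_, ?_, ?_, ?_, ?_, ?_⟩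
    · refine sub_eq_zero.mp ((mul_eq_zero.mp ?_).resolve_left (hF.ne 6 3 1 0 0))
      linear_combination -248064768 * l1 + 17821312 * l2 + 6948180 * l3 - 178268 * l4 + 729 * l5 + l6
    · refine sub_eq_zero.mp ((mul_eq_zero.mp ?_).resolve_left (hF.ne 6 3 1 0 0))
      linear_combination 1736453376 * l1 - 124740544 * l2 - 48637260 * l3 + 1247876 * l4 - 5103 * l5 - 7 * l6
    · refine sub_eq_zero.mp ((mul_eq_zero.mp ?_).resolve_left (hF.ne 7 2 1 0 0))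
      linear_combination 2803621248 * l1 - 201400192 * l2 - 78526260 * l3 + 2014748 * l4 - 7209 * l5 - l6
    · refine sub_eq_zero.mp ((mul_eq_zero.mp ?_).resolve_left (hF.ne 7 3 0 0 0))
      linear_combination 543884544 * l1 - 39069568 * l2 - 15232860 * l3 + 390836 * l4 - 1539 * l5 + 5 * l6
    · refine sub_eq_zero.mp ((mul_eq_zero.mp ?_).resolve_left (hF.ne 7 3 0 0 0))
      linear_combination -125438976 * l1 + 9011968 * l2 + 3513780 * l3 - 90140 * l4 + 297 * l5 + l6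
    · refine sub_eq_zero.mp ((mul_eq_zero.mp ?_).resolve_left (hF.ne 7 2 0 0 0))
      linear_combination -49303296 * l1 + 3541376 * l2 + 1380780 * l3 - 35428 * l4 + 135 * l5 - l6
    · refine sub_eq_zero.mp ((mul_eq_zero.mp ?_).resolve_left (hF.ne 2 1 0 0 0))
      linear_combination 9756 * l1 - 700 * l2 - 273 * l3 + 7 * l4
    · refine sub_eq_zero.mp ((mul_eq_zero.mp ?_).resolve_left (hF.ne 2 1 0 0 0))
      linear_combination -1392 * l1 + 100 * l2 + 39 * l3 - l4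
  subst e0 e1 e2 e3 e4 e5 e6 e7
  have tP1 : (128 * v) ≠ 0 := fun h0 => z1 (by linear_combination h0)
  have tPm3 : (16384 * u + 1024 * v) ≠ 0 := fun h0 => y3 (by linear_combination h0)
  have key : ((2 : F) ^ 0 * 3 ^ 0 * 5 ^ 1 * 7 ^ 1 * 11 ^ 0) * ((128 * v) * (16384 * u + 1024 * v)) = 0 := by
    linear_combination (-4096) * q1 + (32) * q3
  exact mul_ne_zero (hF.ne _ _ _ _ _) (mul_ne_zero tP1 tPm3) key

/-- all pairs -/
theorem no_sys7 {F : Type*} [Field F] (hF : Big F) (x y : ℕ) (hxy : y ≤ x) (h7 : x + y ≤ 7)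
    {a0 a1 a2 a3 a4 a5 a6 a7 : F}
    (h : Sys7 ((x : F) - y) y (-(x : F)) a0 a1 a2 a3 a4 a5 a6 a7) : False := by
  have hx : x ≤ 7 := by omega
  interval_cases x
  · have hy : y ≤ 0 := by omega
    interval_cases y
    · refine c7_0_0 hF (a0 := a0) (a1 := a1) (a2 := a2) (a3 := a3) (a4 := a4) (a5 := a5) (a6 := a6) (a7 := a7) ?_
      convert h using 1 <;> norm_num
  · have hy : y ≤ 1 := by omega
    interval_cases y
    · refine c7_1_0 hF (a0 := a0) (a1 := a1) (a2 := a2) (a3 := a3) (a4 := a4) (a5 := a5) (a6 := a6) (a7 := a7) ?_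
      convert h using 1 <;> norm_num
    · refine c7_1_1 hF (a0 := a0) (a1 := a1) (a2 := a2) (a3 := a3) (a4 := a4) (a5 := a5) (a6 := a6) (a7 := a7) ?_
      convert h using 1 <;> norm_num
  · have hy : y ≤ 2 := by omega
    interval_cases y
    · refine c7_2_0 hF (a0 := a0) (a1 := a1) (a2 := a2) (a3 := a3) (a4 := a4) (a5 := a5) (a6 := a6) (a7 := a7) ?_
      convert h using 1 <;> norm_num
    · refine c7_2_1 hF (a0 := a0) (a1 := a1) (a2 := a2) (a3 := a3) (a4 := a4) (a5 := a5) (a6 := a6) (a7 := a7) ?_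
      convert h using 1 <;> norm_num
    · refine c7_2_2 hF (a0 := a0) (a1 := a1) (a2 := a2) (a3 := a3) (a4 := a4) (a5 := a5) (a6 := a6) (a7 := a7) ?_
      convert h using 1 <;> norm_num
  · have hy : y ≤ 3 := by omega
    interval_cases y
    · refine c7_3_0 hF (a0 := a0) (a1 := a1) (a2 := a2) (a3 := a3) (a4 := a4) (a5 := a5) (a6 := a6) (a7 := a7) ?_
      convert h using 1 <;> norm_num
    · refine c7_3_1 hF (a0 := a0) (a1 := a1) (a2 := a2) (a3 := a3) (a4 := a4) (a5 := a5) (a6 := a6) (a7 := a7) ?_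
      convert h using 1 <;> norm_num
    · refine c7_3_2 hF (a0 := a0) (a1 := a1) (a2 := a2) (a3 := a3) (a4 := a4) (a5 := a5) (a6 := a6) (a7 := a7) ?_
      convert h using 1 <;> norm_num
    · refine c7_3_3 hF (a0 := a0) (a1 := a1) (a2 := a2) (a3 := a3) (a4 := a4) (a5 := a5) (a6 := a6) (a7 := a7) ?_
      convert h using 1 <;> norm_num
  · have hy : y ≤ 3 := by omega
    interval_cases y
    · refine c7_4_0 hF (a0 := a0) (a1 := a1) (a2 := a2) (a3 := a3) (a4 := a4) (a5 := a5) (a6 := a6) (a7 := a7) ?_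
      convert h using 1 <;> norm_num
    · refine c7_4_1 hF (a0 := a0) (a1 := a1) (a2 := a2) (a3 := a3) (a4 := a4) (a5 := a5) (a6 := a6) (a7 := a7) ?_
      convert h using 1 <;> norm_num
    · refine c7_4_2 hF (a0 := a0) (a1 := a1) (a2 := a2) (a3 := a3) (a4 := a4) (a5 := a5) (a6 := a6) (a7 := a7) ?_
      convert h using 1 <;> norm_num
    · refine c7_4_3 hF (a0 := a0) (a1 := a1) (a2 := a2) (a3 := a3) (a4 := a4) (a5 := a5) (a6 := a6) (a7 := a7) ?_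
      convert h using 1 <;> norm_num
  · have hy : y ≤ 2 := by omega
    interval_cases y
    · refine c7_5_0 hF (a0 := a0) (a1 := a1) (a2 := a2) (a3 := a3) (a4 := a4) (a5 := a5) (a6 := a6) (a7 := a7) ?_
      convert h using 1 <;> norm_num
    · refine c7_5_1 hF (a0 := a0) (a1 := a1) (a2 := a2) (a3 := a3) (a4 := a4) (a5 := a5) (a6 := a6) (a7 := a7) ?_
      convert h using 1 <;> norm_num
    · refine c7_5_2 hF (a0 := a0) (a1 := a1) (a2 := a2) (a3 := a3) (a4 := a4) (a5 := a5) (a6 := a6) (a7 := a7) ?_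
      convert h using 1 <;> norm_num
  · have hy : y ≤ 1 := by omega
    interval_cases y
    · refine c7_6_0 hF (a0 := a0) (a1 := a1) (a2 := a2) (a3 := a3) (a4 := a4) (a5 := a5) (a6 := a6) (a7 := a7) ?_
      convert h using 1 <;> norm_num
    · refine c7_6_1 hF (a0 := a0) (a1 := a1) (a2 := a2) (a3 := a3) (a4 := a4) (a5 := a5) (a6 := a6) (a7 := a7) ?_
      convert h using 1 <;> norm_num
  · have hy : y ≤ 0 := by omega
    interval_cases y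
    · refine c7_7_0 hF (a0 := a0) (a1 := a1) (a2 := a2) (a3 := a3) (a4 := a4) (a5 := a5) (a6 := a6) (a7 := a7) ?_
      convert h using 1 <;> norm_num

end H10CQ
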