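import Pool.Agent.H10.CQ.Pass
import Pool.Agent.H10.CQ.Even
import Pool.Agent.H88.CQ.Elim7

/-!
# Project CQ, degree seven

`seven`: `p ≥ 13` a prime, not a Wieferich prime, `K` a number field of degree `7` all of whose residue fields above
`2` have at most `4` elements: `a ^ p + b ^ p + c ^ p = 0` has no solution in the first case over `K`.

PROOF. `t_k = (a_k - b_k)/c_k` for the `7` reductions modulo `p`; `P = ∏ (X - t_k)`. The trace relation for the
prime `2` (`wief_cond`) gives `∑ t_k`, `∑ 1/(t_k - 1)`, `∑ 1/(t_k + 1)` in terms of the numbers `n_a, n_b, n_c` of the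
zeros of `a, b, c` among the reductions modulo `2`; with the six equations (`six_of_sol`) one obtains the system
`Sys7` for the coefficients of `P`, which has no solution (`no_sys7`).
-/

open NumberField IsDedekindDomain H9FC Polynomial

namespace H10CQ

section Pol

variable {F : Type*} [Field F]

theorem logd {n : ℕ} (t : Fin n → F) (r : F) (h : ∀ k, r - t k ≠ 0) :
    (derivative (∏ k, (X - C (t k)))).eval r
      = (∑ k, 1 / (r - t k)) * (∏ k, (X - C (t k))).eval r := by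
  classical
  rw [derivative_prod_finset, eval_finsetSum, Finset.sum_mul]
  refine Finset.sum_congr rfl fun k _ => ?_
  rw [← Finset.mul_prod_erase Finset.univ (fun k => (X - C (t k))) (Finset.mem_univ k)]
  simp only [eval_mul, derivative_sub, derivative_X, derivative_C, sub_zero, mul_one,
    eval_sub, eval_X, eval_C]
  rw [← mul_assoc, one_div, inv_mul_cancel₀ (h k), one_mul]

theorem eval8 (P : F[X]) (hP : P.natDegree < 8) (r : F) :
    P.eval r = P.coeff 0 + P.coeff 1 * r + P.coeff 2 * r ^ 2 + P.coeff 3 * r ^ 3 + P.coeff 4 * r ^ 4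
      + P.coeff 5 * r ^ 5 + P.coeff 6 * r ^ 6 + P.coeff 7 * r ^ 7 := by
  rw [eval_eq_sum_range' hP]
  simp [Finset.sum_range_succ]

theorem deval8 (P : F[X]) (hP : P.natDegree < 8) (r : F) :
    (derivative P).eval r = P.coeff 1 + 2 * P.coeff 2 * r + 3 * P.coeff 3 * r ^ 2
      + 4 * P.coeff 4 * r ^ 3 + 5 * P.coeff 5 * r ^ 4 + 6 * P.coeff 6 * r ^ 5
      + 7 * P.coeff 7 * r ^ 6 := by
  have h1 : (derivative P).natDegree < 8 := lt_of_le_of_lt (natDegree_derivative_le P) (by omega)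
  have h8 : P.coeff 8 = 0 := coeff_eq_zero_of_natDegree_lt hP
  rw [eval_eq_sum_range' h1]
  simp only [Finset.sum_range_succ, Finset.sum_range_zero, coeff_derivative, h8]
  push_cast
  ring

theorem valIp {i : F} (hi : i ^ 2 = -1) (a0 a1 a2 a3 a4 a5 a6 a7 : F) :
    a0 + a1 * (i) + a2 * (i) ^ 2 + a3 * (i) ^ 3 + a4 * (i) ^ 4 + a5 * (i) ^ 5 + a6 * (i) ^ 6 + a7 * (i) ^ 7
      = (a0 - a2 + a4 - a6) + i * (a1 - a3 + a5 - a7) ∧
    a1 + 2 * a2 * (i) + 3 * a3 * (i) ^ 2 + 4 * a4 * (i) ^ 3 + 5 * a5 * (i) ^ 4 + 6 * a6 * (i) ^ 5 + 7 * a7 * (i) ^ 6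
      = (a1 - 3 * a3 + 5 * a5 - 7 * a7) + i * (2 * a2 - 4 * a4 + 6 * a6) := by
  have p2 : (i) ^ 2 = (-1) := by linear_combination (1) * hi
  have p3 : (i) ^ 3 = (-i) := by linear_combination (i) * p2 + (0) * hi
  have p4 : (i) ^ 4 = (1) := by linear_combination (i) * p3 + (-1) * hi
  have p5 : (i) ^ 5 = (i) := by linear_combination (i) * p4 + (0) * hi
  have p6 : (i) ^ 6 = (-1) := by linear_combination (i) * p5 + (1) * hi
  have p7 : (i) ^ 7 = (-i) := by linear_combination (i) * p6 + (0) * hi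
  constructor
  · rw [p2, p3, p4, p5, p6, p7]; ring
  · rw [p2, p3, p4, p5, p6]; ring

theorem valIm {i : F} (hi : i ^ 2 = -1) (a0 a1 a2 a3 a4 a5 a6 a7 : F) :
    a0 + a1 * (-i) + a2 * (-i) ^ 2 + a3 * (-i) ^ 3 + a4 * (-i) ^ 4 + a5 * (-i) ^ 5 + a6 * (-i) ^ 6 + a7 * (-i) ^ 7
      = (a0 - a2 + a4 - a6) - i * (a1 - a3 + a5 - a7) ∧
    a1 + 2 * a2 * (-i) + 3 * a3 * (-i) ^ 2 + 4 * a4 * (-i) ^ 3 + 5 * a5 * (-i) ^ 4 + 6 * a6 * (-i) ^ 5 + 7 * a7 * (-i) ^ 6
      = (a1 - 3 * a3 + 5 * a5 - 7 * a7) - i * (2 * a2 - 4 * a4 + 6 * a6) := by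
  have p2 : (-i) ^ 2 = (-1) := by linear_combination (1) * hi
  have p3 : (-i) ^ 3 = (i) := by linear_combination (-i) * p2 + (0) * hi
  have p4 : (-i) ^ 4 = (1) := by linear_combination (-i) * p3 + (-1) * hi
  have p5 : (-i) ^ 5 = (-i) := by linear_combination (-i) * p4 + (0) * hi
  have p6 : (-i) ^ 6 = (-1) := by linear_combination (-i) * p5 + (1) * hi
  have p7 : (-i) ^ 7 = (i) := by linear_combination (-i) * p6 + (0) * hi
  constructor
  · rw [p2, p3, p4, p5, p6, p7]; ring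
  · rw [p2, p3, p4, p5, p6]; ring

theorem valMp {i : F} (hi : i ^ 2 = -1) (a0 a1 a2 a3 a4 a5 a6 a7 : F) :
    a0 + a1 * (-1 + 2 * i) + a2 * (-1 + 2 * i) ^ 2 + a3 * (-1 + 2 * i) ^ 3 + a4 * (-1 + 2 * i) ^ 4 + a5 * (-1 + 2 * i) ^ 5 + a6 * (-1 + 2 * i) ^ 6 + a7 * (-1 + 2 * i) ^ 7
      = (a0 - a1 - 3 * a2 + 11 * a3 - 7 * a4 - 41 * a5 + 117 * a6 - 29 * a7) + i * (2 * a1 - 4 * a2 - 2 * a3 + 24 * a4 - 38 * a5 - 44 * a6 + 278 * a7) ∧
    a1 + 2 * a2 * (-1 + 2 * i) + 3 * a3 * (-1 + 2 * i) ^ 2 + 4 * a4 * (-1 + 2 * i) ^ 3 + 5 * a5 * (-1 + 2 * i) ^ 4 + 6 * a6 * (-1 + 2 * i) ^ 5 + 7 * a7 * (-1 + 2 * i) ^ 6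
      = (a1 - 2 * a2 - 9 * a3 + 44 * a4 - 35 * a5 - 246 * a6 + 819 * a7) + i * (4 * a2 - 12 * a3 - 8 * a4 + 120 * a5 - 228 * a6 - 308 * a7) := by
  have p2 : (-1 + 2 * i) ^ 2 = (-3 * 1 - 4 * i) := by linear_combination (4) * hi
  have p3 : (-1 + 2 * i) ^ 3 = (11 * 1 - 2 * i) := by linear_combination (-1 + 2 * i) * p2 + (-8) * hi
  have p4 : (-1 + 2 * i) ^ 4 = (-7 * 1 + 24 * i) := by linear_combination (-1 + 2 * i) * p3 + (-4) * hi
  have p5 : (-1 + 2 * i) ^ 5 = (-41 * 1 - 38 * i) := by linear_combination (-1 + 2 * i) * p4 + (48) * hi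
  have p6 : (-1 + 2 * i) ^ 6 = (117 * 1 - 44 * i) := by linear_combination (-1 + 2 * i) * p5 + (-76) * hi
  have p7 : (-1 + 2 * i) ^ 7 = (-29 * 1 + 278 * i) := by linear_combination (-1 + 2 * i) * p6 + (-88) * hi
  constructor
  · rw [p2, p3, p4, p5, p6, p7]; ring
  · rw [p2, p3, p4, p5, p6]; ring

theorem valMm {i : F} (hi : i ^ 2 = -1) (a0 a1 a2 a3 a4 a5 a6 a7 : F) :
    a0 + a1 * (-1 - 2 * i) + a2 * (-1 - 2 * i) ^ 2 + a3 * (-1 - 2 * i) ^ 3 + a4 * (-1 - 2 * i) ^ 4 + a5 * (-1 - 2 * i) ^ 5 + a6 * (-1 - 2 * i) ^ 6 + a7 * (-1 - 2 * i) ^ 7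
      = (a0 - a1 - 3 * a2 + 11 * a3 - 7 * a4 - 41 * a5 + 117 * a6 - 29 * a7) - i * (2 * a1 - 4 * a2 - 2 * a3 + 24 * a4 - 38 * a5 - 44 * a6 + 278 * a7) ∧
    a1 + 2 * a2 * (-1 - 2 * i) + 3 * a3 * (-1 - 2 * i) ^ 2 + 4 * a4 * (-1 - 2 * i) ^ 3 + 5 * a5 * (-1 - 2 * i) ^ 4 + 6 * a6 * (-1 - 2 * i) ^ 5 + 7 * a7 * (-1 - 2 * i) ^ 6
      = (a1 - 2 * a2 - 9 * a3 + 44 * a4 - 35 * a5 - 246 * a6 + 819 * a7) - i * (4 * a2 - 12 * a3 - 8 * a4 + 120 * a5 - 228 * a6 - 308 * a7) := by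
  have p2 : (-1 - 2 * i) ^ 2 = (-3 * 1 + 4 * i) := by linear_combination (4) * hi
  have p3 : (-1 - 2 * i) ^ 3 = (11 * 1 + 2 * i) := by linear_combination (-1 - 2 * i) * p2 + (-8) * hi
  have p4 : (-1 - 2 * i) ^ 4 = (-7 * 1 - 24 * i) := by linear_combination (-1 - 2 * i) * p3 + (-4) * hi
  have p5 : (-1 - 2 * i) ^ 5 = (-41 * 1 + 38 * i) := by linear_combination (-1 - 2 * i) * p4 + (48) * hi
  have p6 : (-1 - 2 * i) ^ 6 = (117 * 1 + 44 * i) := by linear_combination (-1 - 2 * i) * p5 + (-76) * hi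
  have p7 : (-1 - 2 * i) ^ 7 = (-29 * 1 - 278 * i) := by linear_combination (-1 - 2 * i) * p6 + (-88) * hi
  constructor
  · rw [p2, p3, p4, p5, p6, p7]; ring
  · rw [p2, p3, p4, p5, p6]; ring

theorem valNp {i : F} (hi : i ^ 2 = -1) (a0 a1 a2 a3 a4 a5 a6 a7 : F) :
    a0 + a1 * (1 + 2 * i) + a2 * (1 + 2 * i) ^ 2 + a3 * (1 + 2 * i) ^ 3 + a4 * (1 + 2 * i) ^ 4 + a5 * (1 + 2 * i) ^ 5 + a6 * (1 + 2 * i) ^ 6 + a7 * (1 + 2 * i) ^ 7
      = (a0 + a1 - 3 * a2 - 11 * a3 - 7 * a4 + 41 * a5 + 117 * a6 + 29 * a7) + i * (2 * a1 + 4 * a2 - 2 * a3 - 24 * a4 - 38 * a5 + 44 * a6 + 278 * a7) ∧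
    a1 + 2 * a2 * (1 + 2 * i) + 3 * a3 * (1 + 2 * i) ^ 2 + 4 * a4 * (1 + 2 * i) ^ 3 + 5 * a5 * (1 + 2 * i) ^ 4 + 6 * a6 * (1 + 2 * i) ^ 5 + 7 * a7 * (1 + 2 * i) ^ 6
      = (a1 + 2 * a2 - 9 * a3 - 44 * a4 - 35 * a5 + 246 * a6 + 819 * a7) + i * (4 * a2 + 12 * a3 - 8 * a4 - 120 * a5 - 228 * a6 + 308 * a7) := by
  have p2 : (1 + 2 * i) ^ 2 = (-3 * 1 + 4 * i) := by linear_combination (4) * hi
  have p3 : (1 + 2 * i) ^ 3 = (-11 * 1 - 2 * i) := by linear_combination (1 + 2 * i) * p2 + (8) * hi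
  have p4 : (1 + 2 * i) ^ 4 = (-7 * 1 - 24 * i) := by linear_combination (1 + 2 * i) * p3 + (-4) * hi
  have p5 : (1 + 2 * i) ^ 5 = (41 * 1 - 38 * i) := by linear_combination (1 + 2 * i) * p4 + (-48) * hi
  have p6 : (1 + 2 * i) ^ 6 = (117 * 1 + 44 * i) := by linear_combination (1 + 2 * i) * p5 + (-76) * hi
  have p7 : (1 + 2 * i) ^ 7 = (29 * 1 + 278 * i) := by linear_combination (1 + 2 * i) * p6 + (88) * hi
  constructor
  · rw [p2, p3, p4, p5, p6, p7]; ring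
  · rw [p2, p3, p4, p5, p6]; ring

theorem valNm {i : F} (hi : i ^ 2 = -1) (a0 a1 a2 a3 a4 a5 a6 a7 : F) :
    a0 + a1 * (1 - 2 * i) + a2 * (1 - 2 * i) ^ 2 + a3 * (1 - 2 * i) ^ 3 + a4 * (1 - 2 * i) ^ 4 + a5 * (1 - 2 * i) ^ 5 + a6 * (1 - 2 * i) ^ 6 + a7 * (1 - 2 * i) ^ 7
      = (a0 + a1 - 3 * a2 - 11 * a3 - 7 * a4 + 41 * a5 + 117 * a6 + 29 * a7) - i * (2 * a1 + 4 * a2 - 2 * a3 - 24 * a4 - 38 * a5 + 44 * a6 + 278 * a7) ∧
    a1 + 2 * a2 * (1 - 2 * i) + 3 * a3 * (1 - 2 * i) ^ 2 + 4 * a4 * (1 - 2 * i) ^ 3 + 5 * a5 * (1 - 2 * i) ^ 4 + 6 * a6 * (1 - 2 * i) ^ 5 + 7 * a7 * (1 - 2 * i) ^ 6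
      = (a1 + 2 * a2 - 9 * a3 - 44 * a4 - 35 * a5 + 246 * a6 + 819 * a7) - i * (4 * a2 + 12 * a3 - 8 * a4 - 120 * a5 - 228 * a6 + 308 * a7) := by
  have p2 : (1 - 2 * i) ^ 2 = (-3 * 1 - 4 * i) := by linear_combination (4) * hi
  have p3 : (1 - 2 * i) ^ 3 = (-11 * 1 + 2 * i) := by linear_combination (1 - 2 * i) * p2 + (8) * hi
  have p4 : (1 - 2 * i) ^ 4 = (-7 * 1 + 24 * i) := by linear_combination (1 - 2 * i) * p3 + (-4) * hi
  have p5 : (1 - 2 * i) ^ 5 = (41 * 1 + 38 * i) := by linear_combination (1 - 2 * i) * p4 + (-48) * hi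
  have p6 : (1 - 2 * i) ^ 6 = (117 * 1 - 44 * i) := by linear_combination (1 - 2 * i) * p5 + (-76) * hi
  have p7 : (1 - 2 * i) ^ 7 = (29 * 1 - 278 * i) := by linear_combination (1 - 2 * i) * p6 + (88) * hi
  constructor
  · rw [p2, p3, p4, p5, p6, p7]; ring
  · rw [p2, p3, p4, p5, p6]; ring

end Pol

section Sys

variable {F : Type*} [Field F]

theorem two_pt {A B C E s i : F} (hi : i ^ 2 = -1) (h2 : (2 : F) ≠ 0)
    (h : (C + i * E) * (A - i * B) - (C - i * E) * (A + i * B) = -(i * s / 2) * ((A + i * B) * (A - i * B))) :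
    4 * (E * A - C * B) + s * (A ^ 2 + B ^ 2) = 0 := by
  have hi0 : i ≠ 0 := by
    rintro rfl
    have : (1 : F) = 0 := by linear_combination hi
    exact one_ne_zero this
  have h4 : (2 : F) * i * (4 * (E * A - C * B) + s * (A ^ 2 + B ^ 2)) = 0 := by
    have h5 : (2 : F) * ((C + i * E) * (A - i * B) - (C - i * E) * (A + i * B))
        = -(i * s) * ((A + i * B) * (A - i * B)) := by
      rw [h]
      field_simp
    linear_combination 2 * h5 + (2 * i * s * B ^ 2) * hi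
  exact (mul_eq_zero.mp h4).resolve_left (mul_ne_zero h2 hi0)

theorem frac_two {w q z : F} (hw : w ≠ 0) (hq : q ≠ 0) (h2 : (2 : F) ≠ 0) (hs : w + q = 2 * z) :
    z / (w * q) = 1 / 2 * (1 / w + 1 / q) := by
  rw [div_add_div _ _ hw hq, div_mul_div_comm, div_eq_div_iff (mul_ne_zero hw hq)
    (mul_ne_zero h2 (mul_ne_zero hw hq))]
  linear_combination -(w * q) * hs

theorem sys_of_t {n : ℕ} (hn : n = 7) (t : Fin n → F) (hS : Six t) {i : F} (hi : i ^ 2 = -1)
    (h2 : (2 : F) ≠ 0) (m1 m2 m3 : F) (T1 : ∑ k, t k = m1)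
    (T2 : 4 * ∑ k, 1 / (t k - 1) = -(m2 + 7)) (T3 : 4 * ∑ k, 1 / (t k + 1) = 7 - m3) :
    Sys7 m1 m2 m3 ((∏ k, (X - C (t k))).coeff 0) ((∏ k, (X - C (t k))).coeff 1)
      ((∏ k, (X - C (t k))).coeff 2) ((∏ k, (X - C (t k))).coeff 3) ((∏ k, (X - C (t k))).coeff 4)
      ((∏ k, (X - C (t k))).coeff 5) ((∏ k, (X - C (t k))).coeff 6)
      ((∏ k, (X - C (t k))).coeff 7) := by
  classical
  have hi0 : i ≠ 0 := by
    rintro rfl
    have : (1 : F) = 0 := by linear_combination hi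
    exact one_ne_zero this
  have h4 : (4 : F) ≠ 0 := by
    have : (4 : F) = 2 * 2 := by norm_num
    rw [this]
    exact mul_ne_zero h2 h2
  have hdeg : (∏ k, (X - C (t k))).natDegree = 7 := by
    rw [natDegree_prod_of_monic _ _ fun k _ => monic_X_sub_C (t k)]
    simp [hn]
  have hmon : (∏ k, (X - C (t k))).Monic := monic_prod_of_monic _ _ fun k _ => monic_X_sub_C (t k)
  have hcard : (Finset.univ : Finset (Fin n)).card = 7 := by simp [hn]
  have hc6 : (∏ k, (X - C (t k))).coeff 6 = -∑ k, t k := by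
    have := prod_X_sub_C_coeff_card_pred (Finset.univ : Finset (Fin n)) t (by rw [hcard]; norm_num)
    rw [hcard] at this
    exact this
  have hev : ∀ r, (∏ k, (X - C (t k))).eval r = ∏ k, (r - t k) := by
    intro r
    rw [eval_prod]
    simp
  have hne : ∀ r, (∀ k, r - t k ≠ 0) → (∏ k, (X - C (t k))).eval r ≠ 0 := by
    intro r hr
    rw [hev]
    exact Finset.prod_ne_zero_iff.mpr fun k _ => hr k
  have hlog := fun r => logd t r
  have hc7 : (∏ k, (X - C (t k))).coeff 7 = 1 := by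
    have := hmon.coeff_natDegree
    rwa [hdeg] at this
  generalize (∏ k, (X - C (t k))) = P at *
  have hd8 : P.natDegree < 8 := by omega
  -- nonvanishing
  have r0 : ∀ k, (0 : F) - t k ≠ 0 := fun k h => hS.d0 k (by linear_combination -h)
  have r1 : ∀ k, (1 : F) - t k ≠ 0 := fun k h => hS.d1 k (by linear_combination -h)
  have rm1 : ∀ k, (-1 : F) - t k ≠ 0 := fun k h => hS.d2 k (by linear_combination -h)
  have r3 : ∀ k, (3 : F) - t k ≠ 0 := fun k h => hS.d3 k (by linear_combination -h)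
  have rm3 : ∀ k, (-3 : F) - t k ≠ 0 := fun k h => hS.d4 k (by linear_combination -h)
  have ri : ∀ k, i - t k ≠ 0 := fun k h => hS.d5 k (by
    have : t k = i := by linear_combination -h
    rw [this]; linear_combination hi)
  have rmi : ∀ k, -i - t k ≠ 0 := fun k h => hS.d5 k (by
    have : t k = -i := by linear_combination -h
    rw [this]; linear_combination hi)
  have ra : ∀ k, (-1 + 2 * i) - t k ≠ 0 := fun k h => hS.d7 k (by
    have : t k = -1 + 2 * i := by linear_combination -h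
    rw [this]; linear_combination 4 * hi)
  have ra' : ∀ k, (-1 - 2 * i) - t k ≠ 0 := fun k h => hS.d7 k (by
    have : t k = -1 - 2 * i := by linear_combination -h
    rw [this]; linear_combination 4 * hi)
  have rb : ∀ k, (1 + 2 * i) - t k ≠ 0 := fun k h => hS.d6 k (by
    have : t k = 1 + 2 * i := by linear_combination -h
    rw [this]; linear_combination 4 * hi)
  have rb' : ∀ k, (1 - 2 * i) - t k ≠ 0 := fun k h => hS.d6 k (by
    have : t k = 1 - 2 * i := by linear_combination -h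
    rw [this]; linear_combination 4 * hi)
  -- the sums
  have s0 : ∑ k, 1 / (0 - t k) = -m1 := by
    have h1 := hS.e1
    rw [Finset.sum_sub_distrib, T1] at h1
    have h3 : ∑ k, 1 / (0 - t k) = -∑ k, 1 / t k := by
      rw [← Finset.sum_neg_distrib]
      refine Finset.sum_congr rfl fun k _ => ?_
      rw [zero_sub, one_div, one_div, inv_neg]
    rw [h3]
    linear_combination h1
  have e2' := hS.e2
  have e3' := hS.e3
  rw [Finset.sum_add_distrib] at e2' e3'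
  have neg : ∀ r : F, ∑ k, 1 / (r - t k) = -∑ k, 1 / (t k - r) := by
    intro r
    rw [← Finset.sum_neg_distrib]
    refine Finset.sum_congr rfl fun k _ => ?_
    rw [← neg_sub (t k) r, one_div, one_div, inv_neg]
  have s1 : 4 * ∑ k, 1 / (1 - t k) = m2 + 7 := by
    rw [neg 1]
    linear_combination -T2
  have sm3 : 4 * ∑ k, 1 / (-3 - t k) = -(m2 + 7) := by
    rw [neg (-3)]
    simp only [sub_neg_eq_add]
    linear_combination -4 * e2' + T2
  have sm1 : 4 * ∑ k, 1 / (-1 - t k) = -(7 - m3) := by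
    rw [neg (-1)]
    simp only [sub_neg_eq_add]
    linear_combination -T3
  have s3 : 4 * ∑ k, 1 / (3 - t k) = 7 - m3 := by
    rw [neg 3]
    linear_combination -4 * e3' + T3
  have si : ∑ k, 1 / (i - t k) + ∑ k, 1 / (-i - t k) = -m1 := by
    have h1 := hS.e4
    have h3 : ∑ k, (t k ^ 2 - 1) ^ 2 / (t k * (t k ^ 2 + 1))
        = ∑ k, t k + ∑ k, t k + (2 : F) * (∑ k, 1 / (i - t k) + ∑ k, 1 / (-i - t k))
          - ∑ k, (t k - 1 / t k) := by
      rw [mul_add, Finset.mul_sum, Finset.mul_sum, ← Finset.sum_add_distrib, ← Finset.sum_add_distrib,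
        ← Finset.sum_add_distrib, ← Finset.sum_sub_distrib]
      refine Finset.sum_congr rfl fun k _ => ?_
      have a1 := hS.d0 k
      have a2 := hS.d5 k
      have a3 := ri k
      have a4 := rmi k
      have a6 : 1 / (i - t k) + 1 / (-i - t k) = -2 * t k / (t k ^ 2 + 1) := by
        rw [div_add_div _ _ a3 a4, div_eq_div_iff (mul_ne_zero a3 a4) a2]
        linear_combination (-2 * t k) * hi
      have a7 : 2 * (1 / (i - t k)) + 2 * (1 / (-i - t k)) = -4 * t k / (t k ^ 2 + 1) := by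
        rw [← mul_add, a6]
        ring
      rw [a7]
      field_simp
      ring
    rw [h3, T1, hS.e1] at h1
    have h5 : (2 : F) * (∑ k, 1 / (i - t k) + ∑ k, 1 / (-i - t k) + m1) = 0 := by
      linear_combination h1
    linear_combination (mul_eq_zero.mp h5).resolve_left h2
  have hquad : ∀ r r' : F, r + r' = -2 → r * r' = 5 → (∀ k, r - t k ≠ 0) → (∀ k, r' - t k ≠ 0) →
      ∑ k, 1 / (r - t k) - ∑ k, 1 / (r' - t k) = -((r - r') * (m2 + 7) / 8) := by
    intro r r' hs hp hr hr'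
    have h1 := hS.e5
    have h3 : ∑ k, (t k + 1) ^ 2 / ((t k - 1) * (t k + 3) * (t k ^ 2 + 2 * t k + 5))
        = ∑ k, 1 / 2 * ((1 / (t k - 1) - 1 / (t k + 3)) / 4 + 1 / (t k ^ 2 + 2 * t k + 5)) := by
      refine Finset.sum_congr rfl fun k _ => ?_
      have a1 := hS.d1 k
      have a2 := hS.d4 k
      have a3 := hS.d7 k
      have a4 : (1 / (t k - 1) - 1 / (t k + 3)) / 4 = 1 / ((t k - 1) * (t k + 3)) := by
        field_simp
        ring
      rw [a4]
      exact frac_two (mul_ne_zero a1 a2) a3 h2 (by ring)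
    rw [h3, ← Finset.mul_sum, Finset.sum_add_distrib, ← Finset.sum_div, Finset.sum_sub_distrib] at h1
    have h5 : ∑ k, 1 / (r - t k) - ∑ k, 1 / (r' - t k)
        = -((r - r') * ∑ k, 1 / (t k ^ 2 + 2 * t k + 5)) := by
      rw [Finset.mul_sum, ← Finset.sum_sub_distrib, ← Finset.sum_neg_distrib]
      refine Finset.sum_congr rfl fun k _ => ?_
      have a1 := hr k
      have a2 := hr' k
      have a3 := hS.d7 k
      rw [div_sub_div _ _ a1 a2, mul_one_div, ← neg_div, div_eq_div_iff (mul_ne_zero a1 a2) a3]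
      linear_combination (r' - r) * (t k) * hs - (r' - r) * hp
    have h6 : ∑ k, 1 / (t k ^ 2 + 2 * t k + 5) = (m2 + 7) / 8 := by
      have h7 := (mul_eq_zero.mp h1).resolve_left (div_ne_zero one_ne_zero h2)
      have h8 : (8 : F) ≠ 0 := by
        have : (8 : F) = 4 * 2 := by norm_num
        rw [this]
        exact mul_ne_zero h4 h2
      rw [eq_div_iff h8]
      have h9 : (4 : F) * ((∑ k, 1 / (t k - 1) - ∑ k, 1 / (t k + 3)) / 4)
          = ∑ k, 1 / (t k - 1) - ∑ k, 1 / (t k + 3) := by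
        field_simp
      linear_combination 8 * h7 - 2 * h9 + 2 * e2' - T2
    rw [h5, h6]
    ring
  have hquad3 : ∀ r r' : F, r + r' = 2 → r * r' = 5 → (∀ k, r - t k ≠ 0) → (∀ k, r' - t k ≠ 0) →
      ∑ k, 1 / (r - t k) - ∑ k, 1 / (r' - t k) = -((r - r') * (7 - m3) / 8) := by
    intro r r' hs hp hr hr'
    have h1 := hS.e6
    have h3 : ∑ k, (t k - 1) ^ 2 / ((t k + 1) * (t k - 3) * (t k ^ 2 - 2 * t k + 5))
        = ∑ k, 1 / 2 * ((1 / (t k - 3) - 1 / (t k + 1)) / 4 + 1 / (t k ^ 2 - 2 * t k + 5)) := by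
      refine Finset.sum_congr rfl fun k _ => ?_
      have a1 := hS.d2 k
      have a2 := hS.d3 k
      have a3 := hS.d6 k
      have a4 : (1 / (t k - 3) - 1 / (t k + 1)) / 4 = 1 / ((t k + 1) * (t k - 3)) := by
        field_simp
        ring
      rw [a4]
      exact frac_two (mul_ne_zero a1 a2) a3 h2 (by ring)
    rw [h3, ← Finset.mul_sum, Finset.sum_add_distrib, ← Finset.sum_div, Finset.sum_sub_distrib] at h1
    have h5 : ∑ k, 1 / (r - t k) - ∑ k, 1 / (r' - t k)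
        = -((r - r') * ∑ k, 1 / (t k ^ 2 - 2 * t k + 5)) := by
      rw [Finset.mul_sum, ← Finset.sum_sub_distrib, ← Finset.sum_neg_distrib]
      refine Finset.sum_congr rfl fun k _ => ?_
      have a1 := hr k
      have a2 := hr' k
      have a3 := hS.d6 k
      rw [div_sub_div _ _ a1 a2, mul_one_div, ← neg_div, div_eq_div_iff (mul_ne_zero a1 a2) a3]
      linear_combination (r' - r) * (t k) * hs - (r' - r) * hp
    have h6 : ∑ k, 1 / (t k ^ 2 - 2 * t k + 5) = (7 - m3) / 8 := by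
      have h7 := (mul_eq_zero.mp h1).resolve_left (div_ne_zero one_ne_zero h2)
      have h8 : (8 : F) ≠ 0 := by
        have : (8 : F) = 4 * 2 := by norm_num
        rw [this]
        exact mul_ne_zero h4 h2
      rw [eq_div_iff h8]
      have h9 : (4 : F) * ((∑ k, 1 / (t k - 3) - ∑ k, 1 / (t k + 1)) / 4)
          = ∑ k, 1 / (t k - 3) - ∑ k, 1 / (t k + 1) := by
        field_simp
      linear_combination 8 * h7 - 2 * h9 - 2 * e3' + T3
    rw [h5, h6]
    ring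
  have sa := hquad (-1 + 2 * i) (-1 - 2 * i) (by ring) (by linear_combination -4 * hi) ra ra'
  have sb := hquad3 (1 + 2 * i) (1 - 2 * i) (by ring) (by linear_combination -4 * hi) rb rb'
  -- values of P
  have l0 := hlog 0 r0
  have l1 := hlog 1 r1
  have lm1 := hlog (-1) rm1
  have l3 := hlog 3 r3
  have lm3 := hlog (-3) rm3
  have li := hlog i ri
  have lmi := hlog (-i) rmi
  have la := hlog (-1 + 2 * i) ra
  have la' := hlog (-1 - 2 * i) ra'
  have lb := hlog (1 + 2 * i) rb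
  have lb' := hlog (1 - 2 * i) rb'
  have n0 := hne 0 r0
  have n1 := hne 1 r1
  have nm1 := hne (-1) rm1
  have n3 := hne 3 r3
  have nm3 := hne (-3) rm3
  clear hlog hne hev
  rw [eval8 P hd8] at n0 n1 nm1 n3 nm3
  rw [eval8 P hd8, deval8 P hd8] at l0
  refine ⟨?_, ?_, ?_, ?_, ?_, ?_, ?_, ?_, ?_, ?_, ?_, ?_, ?_, ?_, ?_⟩
  · rw [hc7]; exact one_ne_zero
  · intro h; apply n0; linear_combination h
  · intro h; apply n1; linear_combination h
  · intro h; apply nm1; linear_combination h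
  · intro h; apply n3; linear_combination h
  · intro h; apply nm3; linear_combination h
  · rw [hc6, hc7, T1]; ring
  · rw [s0] at l0; linear_combination l0
  · have h5 : 4 * (derivative P).eval 1 - (m2 + 7) * P.eval 1 = 0 := by
      rw [l1]
      linear_combination (P.eval 1) * s1
    rw [eval8 P hd8, deval8 P hd8] at h5
    linear_combination h5
  · have h5 : 4 * (derivative P).eval (-3) + (m2 + 7) * P.eval (-3) = 0 := by
      rw [lm3]
      linear_combination (P.eval (-3)) * sm3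
    rw [eval8 P hd8, deval8 P hd8] at h5
    linear_combination h5
  · have h5 : 4 * (derivative P).eval (-1) + (7 - m3) * P.eval (-1) = 0 := by
      rw [lm1]
      linear_combination (P.eval (-1)) * sm1
    rw [eval8 P hd8, deval8 P hd8] at h5
    linear_combination h5
  · have h5 : 4 * (derivative P).eval 3 - (7 - m3) * P.eval 3 = 0 := by
      rw [l3]
      linear_combination (P.eval 3) * s3
    rw [eval8 P hd8, deval8 P hd8] at h5
    linear_combination h5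
  · have h5 : (derivative P).eval i * P.eval (-i) + (derivative P).eval (-i) * P.eval i
        = -m1 * (P.eval i * P.eval (-i)) := by
      rw [li, lmi, ← si]
      ring
    rw [eval8 P hd8, eval8 P hd8, deval8 P hd8, deval8 P hd8] at h5
    obtain ⟨v1, v2⟩ := valIp hi (P.coeff 0) (P.coeff 1) (P.coeff 2) (P.coeff 3) (P.coeff 4)
      (P.coeff 5) (P.coeff 6) (P.coeff 7)
    obtain ⟨v3, v4⟩ := valIm hi (P.coeff 0) (P.coeff 1) (P.coeff 2) (P.coeff 3) (P.coeff 4)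
      (P.coeff 5) (P.coeff 6) (P.coeff 7)
    rw [v1, v2, v3, v4] at h5
    generalize (P.coeff 0 - P.coeff 2 + P.coeff 4 - P.coeff 6) = A at *
    generalize (P.coeff 1 - P.coeff 3 + P.coeff 5 - P.coeff 7) = B at *
    generalize (P.coeff 1 - 3 * P.coeff 3 + 5 * P.coeff 5 - 7 * P.coeff 7) = C' at *
    generalize (2 * P.coeff 2 - 4 * P.coeff 4 + 6 * P.coeff 6) = E at *
    linear_combination h5 + (2 * B * E + m1 * B ^ 2) * hi
  · refine two_pt hi h2 ?_
    obtain ⟨v1, v2⟩ := valMp hi (P.coeff 0) (P.coeff 1) (P.coeff 2) (P.coeff 3) (P.coeff 4)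
      (P.coeff 5) (P.coeff 6) (P.coeff 7)
    obtain ⟨v3, v4⟩ := valMm hi (P.coeff 0) (P.coeff 1) (P.coeff 2) (P.coeff 3) (P.coeff 4)
      (P.coeff 5) (P.coeff 6) (P.coeff 7)
    rw [← v1, ← v2, ← v3, ← v4, ← eval8 P hd8, ← eval8 P hd8, ← deval8 P hd8, ← deval8 P hd8, la, la']
    have h5 : (-1 + 2 * i - (-1 - 2 * i)) * (m2 + 7) / 8 = i * (m2 + 7) / 2 := by
      have h8 : (8 : F) ≠ 0 := by
        have : (8 : F) = 4 * 2 := by norm_num
        rw [this]
        exact mul_ne_zero h4 h2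
      rw [div_eq_div_iff h8 h2]
      ring
    rw [h5] at sa
    rw [← sa]
    ring
  · refine two_pt hi h2 ?_
    obtain ⟨v1, v2⟩ := valNp hi (P.coeff 0) (P.coeff 1) (P.coeff 2) (P.coeff 3) (P.coeff 4)
      (P.coeff 5) (P.coeff 6) (P.coeff 7)
    obtain ⟨v3, v4⟩ := valNm hi (P.coeff 0) (P.coeff 1) (P.coeff 2) (P.coeff 3) (P.coeff 4)
      (P.coeff 5) (P.coeff 6) (P.coeff 7)
    rw [← v1, ← v2, ← v3, ← v4, ← eval8 P hd8, ← eval8 P hd8, ← deval8 P hd8, ← deval8 P hd8, lb, lb']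
    have h5 : (1 + 2 * i - (1 - 2 * i)) * (7 - m3) / 8 = i * (7 - m3) / 2 := by
      have h8 : (8 : F) ≠ 0 := by
        have : (8 : F) = 4 * 2 := by norm_num
        rw [this]
        exact mul_ne_zero h4 h2
      rw [div_eq_div_iff h8 h2]
      ring
    rw [h5] at sb
    rw [← sb]
    ring

end Sys

section Main

/-- the numbers of zeros above `2` -/
theorem mm_sum_le {K : Type*} [Field K] [NumberField K] {p : ℕ} [Fact p.Prime] {a b c : 𝓞 K}
    (h : FSol K p a b c) (hc2 : CopAt K 2 a b c) :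
    mm K 2 a + mm K 2 b + mm K 2 c ≤ Module.finrank ℚ K := by
  classical
  have : Fact (Nat.Prime 2) := ⟨Nat.prime_two⟩
  obtain ⟨ψ, hψ⟩ := exists_redFam K 2 (AlgebraicClosure (ZMod 2))
  have hA := card_zero_eq_mm 2 hψ a
  have hB := card_zero_eq_mm 2 hψ b
  have hC := card_zero_eq_mm 2 hψ c
  rw [Nat.card_eq_fintype_card, Fintype.card_subtype] at hA hB hC
  have hcop := fun i => cop_hom h hc2 (ψ i)
  rw [← hA, ← hB, ← hC, ← Finset.card_union_of_disjoint, ← Finset.card_union_of_disjoint]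
  · exact (Finset.card_le_univ _).trans (by rw [Fintype.card_fin])
  · rw [Finset.disjoint_left]
    intro i h1 h2
    rw [Finset.mem_filter] at h2
    rcases Finset.mem_union.mp h1 with h3 | h3
    · rw [Finset.mem_filter] at h3
      exact (hcop i).2.2 ⟨h2.2, h3.2⟩
    · rw [Finset.mem_filter] at h3
      exact (hcop i).2.1 ⟨h3.2, h2.2⟩
  · rw [Finset.disjoint_left]
    intro i h1 h2
    rw [Finset.mem_filter] at h1 h2
    exact (hcop i).1 ⟨h1.2, h2.2⟩

/-- the sorted case -/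
theorem seven_core (K : Type*) [Field K] [NumberField K] (p : ℕ) [Fact p.Prime] (hp : 11 < p)
    (hK : Module.finrank ℚ K = 7) (hW : ¬ p ^ 2 ∣ 2 ^ (p - 1) - 1)
    (h2 : ∀ P : Ideal (𝓞 K), P.IsPrime → ((2 : ℕ) : 𝓞 K) ∈ P → Nat.card (𝓞 K ⧸ P) ≤ 4)
    (a b c : 𝓞 K) (h : FSol K p a b c) (hc2 : CopAt K 2 a b c)
    (hfc : ∀ P : Ideal (𝓞 K), P.IsPrime → (p : 𝓞 K) ∈ P → a ∉ P ∧ b ∉ P ∧ c ∉ P)
    (hab : mm K 2 b ≤ mm K 2 a) (hbc : mm K 2 c ≤ mm K 2 b) : False := by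
  classical
  have : Fact (Nat.Prime 2) := ⟨Nat.prime_two⟩
  have hpp : p.Prime := Fact.out
  obtain ⟨ψ, hψ⟩ := exists_redFam K p (AlgebraicClosure (ZMod p))
  set Ω := AlgebraicClosure (ZMod p)
  have hcast : ∀ m : ℕ, 0 < m → m < p → (m : Ω) ≠ 0 := fun m h0 h1 h3 => by
    have := Nat.le_of_dvd h0 ((CharP.cast_eq_zero_iff Ω p m).mp h3)
    omega
  have hF : Big Ω := by
    refine ⟨?_, ?_, ?_, ?_, ?_⟩
    · exact_mod_cast hcast 2 (by norm_num) (by omega)
    · exact_mod_cast hcast 3 (by norm_num) (by omega)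
    · exact_mod_cast hcast 5 (by norm_num) (by omega)
    · exact_mod_cast hcast 7 (by norm_num) (by omega)
    · exact_mod_cast hcast 11 (by norm_num) (by omega)
  have h4 : (4 : Ω) ≠ 0 := by exact_mod_cast hcast 4 (by norm_num) (by omega)
  have hker : ∀ k, ψ k a ≠ 0 ∧ ψ k b ≠ 0 ∧ ψ k c ≠ 0 := by
    intro k
    have h1 := hfc (RingHom.ker (ψ k)) (RingHom.ker_isPrime _) (by
      rw [RingHom.mem_ker, map_natCast, CharP.cast_eq_zero])
    exact ⟨fun h0 => h1.1 h0, fun h0 => h1.2.1 h0, fun h0 => h1.2.2 h0⟩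
  have hcp : CopAt K p a b c := fun P hP hpP h3 => (hfc P hP hpP).1 h3.1
  have hS := six_of_sol K p (by omega) (by omega) hW a b c h hfc hψ
  have e1 := wief_cond K p (by omega) (by omega) 2 hW (Or.inl ⟨rfl, h2⟩) a b c h hcp hc2 hψ
  have e2 := wief_cond K p (by omega) (by omega) 2 hW (Or.inl ⟨rfl, h2⟩) b c a h.rot hcp.rot
    hc2.rot hψ
  have e3 := wief_cond K p (by omega) (by omega) 2 hW (Or.inl ⟨rfl, h2⟩) c a b h.rot.rot
    hcp.rot.rot hc2.rot.rot hψ
  have hcard : ∑ _k : Fin (Module.finrank ℚ K), (1 : Ω) = 7 := by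
    rw [Finset.sum_const, Finset.card_univ, Fintype.card_fin, hK]
    norm_num
  have hsum : ∀ k, ψ k a + ψ k b + ψ k c = 0 := fun k => fsol_hom h (ψ k)
  obtain ⟨i, hi⟩ : ∃ i : Ω, i ^ 2 = -1 := IsAlgClosed.exists_pow_nat_eq (-1) (by norm_num)
  have T2 : 4 * ∑ k, 1 / ((ψ k a - ψ k b) / ψ k c - 1)
      = -(((mm K 2 b : Ω) - (mm K 2 c : Ω)) + 7) := by
    have h5 : ∑ k, (ψ k b - ψ k c) / ψ k a
        = -(4 * ∑ k, 1 / ((ψ k a - ψ k b) / ψ k c - 1)) - ∑ _k : Fin (Module.finrank ℚ K), (1 : Ω) := by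
      rw [Finset.mul_sum, ← Finset.sum_neg_distrib, ← Finset.sum_sub_distrib]
      refine Finset.sum_congr rfl fun k _ => ?_
      obtain ⟨ka, kb, kc⟩ := hker k
      have h6 : (ψ k a - ψ k b) / ψ k c - 1 = 2 * ψ k a / ψ k c := by
        field_simp
        linear_combination -(hsum k)
      have h7 := hF.n2
      rw [h6]
      field_simp
      linear_combination 2 * hsum k
    rw [hcard, e2] at h5
    linear_combination h5
  have T3 : 4 * ∑ k, 1 / ((ψ k a - ψ k b) / ψ k c + 1)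
      = 7 - ((mm K 2 c : Ω) - (mm K 2 a : Ω)) := by
    have h5 : ∑ k, (ψ k c - ψ k a) / ψ k b
        = ∑ _k : Fin (Module.finrank ℚ K), (1 : Ω) - 4 * ∑ k, 1 / ((ψ k a - ψ k b) / ψ k c + 1) := by
      rw [Finset.mul_sum, ← Finset.sum_sub_distrib]
      refine Finset.sum_congr rfl fun k _ => ?_
      obtain ⟨ka, kb, kc⟩ := hker k
      have h6 : (ψ k a - ψ k b) / ψ k c + 1 = -2 * ψ k b / ψ k c := by
        field_simp
        linear_combination hsum k
      have h7 := hF.n2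
      rw [h6]
      field_simp
      linear_combination -2 * hsum k
    rw [hcard, e3] at h5
    linear_combination h5
  have hsys := sys_of_t hK _ hS hi hF.n2 _ _ _ e1 T2 T3
  have hle := mm_sum_le h hc2
  rw [hK] at hle
  have hx : ((mm K 2 a - mm K 2 c : ℕ) : Ω) = (mm K 2 a : Ω) - (mm K 2 c : Ω) :=
    Nat.cast_sub (hbc.trans hab)
  have hy : ((mm K 2 b - mm K 2 c : ℕ) : Ω) = (mm K 2 b : Ω) - (mm K 2 c : Ω) := Nat.cast_sub hbc
  have g1 : (mm K 2 a : Ω) - (mm K 2 b : Ω)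
      = ((mm K 2 a - mm K 2 c : ℕ) : Ω) - ((mm K 2 b - mm K 2 c : ℕ) : Ω) := by
    rw [hx, hy]; ring
  have g3 : (mm K 2 c : Ω) - (mm K 2 a : Ω) = -((mm K 2 a - mm K 2 c : ℕ) : Ω) := by
    rw [hx]; ring
  rw [g1, ← hy, g3] at hsys
  exact no_sys7 hF (mm K 2 a - mm K 2 c) (mm K 2 b - mm K 2 c) (by omega) (by omega) hsys

/-- the first case over the number fields of degree seven all of whose residue fields above `2` have at
most four elements, for every prime `p ≥ 13` which is not a Wieferich prime -/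
theorem seven (K : Type*) [Field K] [NumberField K] (p : ℕ) [Fact p.Prime] (hp : 11 < p)
    (hK : Module.finrank ℚ K = 7) (hW : ¬ p ^ 2 ∣ 2 ^ (p - 1) - 1)
    (h2 : ∀ v : HeightOneSpectrum (𝓞 K), (2 : 𝓞 K) ∈ v.asIdeal → Nat.card (𝓞 K ⧸ v.asIdeal) ≤ 4)
    (a b c : K) (ha : a ≠ 0) (hb : b ≠ 0) (hc : c ≠ 0) (h : a ^ p + b ^ p + c ^ p = 0)
    (hf : ∀ v : HeightOneSpectrum (𝓞 K), (p : 𝓞 K) ∈ v.asIdeal →
      v.valuation K a = v.valuation K b ∧ v.valuation K b = v.valuation K c) : False := by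
  have : Fact (Nat.Prime 2) := ⟨Nat.prime_two⟩
  obtain ⟨l, a', b', c', hl, ea, eb, ec, hF, hcq, hfc⟩ := exists_first 2 a b c ha hb hc h hf
  have h2' : ∀ P : Ideal (𝓞 K), P.IsPrime → ((2 : ℕ) : 𝓞 K) ∈ P → Nat.card (𝓞 K ⧸ P) ≤ 4 := by
    intro P hP h2P
    have hne : P ≠ ⊥ := by
      rintro rfl
      rw [Ideal.mem_bot] at h2P
      exact two_ne_zero (by exact_mod_cast h2P : (2 : 𝓞 K) = 0)
    exact h2 ⟨P, hP, hne⟩ (by exact_mod_cast h2P)
  have key := fun (x y z : 𝓞 K) (h1 : FSol K p x y z) (h3 : CopAt K 2 x y z)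
    (h4 : ∀ P : Ideal (𝓞 K), P.IsPrime → (p : 𝓞 K) ∈ P → x ∉ P ∧ y ∉ P ∧ z ∉ P) =>
    seven_core K p hp hK hW h2' x y z h1 h3 h4
  rcases le_total (mm K 2 a') (mm K 2 b') with h1 | h1
  · rcases le_total (mm K 2 b') (mm K 2 c') with h3 | h3
    · exact key c' b' a' hF.rot.swap hcq.rot.swap
        (fun P hP hpP => ⟨(hfc P hP hpP).2.2, (hfc P hP hpP).2.1, (hfc P hP hpP).1⟩) h3 h1
    · rcases le_total (mm K 2 a') (mm K 2 c') with h5 | h5
      · exact key b' c' a' hF.rot hcq.rot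
          (fun P hP hpP => ⟨(hfc P hP hpP).2.1, (hfc P hP hpP).2.2, (hfc P hP hpP).1⟩) h3 h5
      · exact key b' a' c' hF.swap hcq.swap
          (fun P hP hpP => ⟨(hfc P hP hpP).2.1, (hfc P hP hpP).1, (hfc P hP hpP).2.2⟩) h1 h5
  · rcases le_total (mm K 2 b') (mm K 2 c') with h3 | h3
    · rcases le_total (mm K 2 a') (mm K 2 c') with h5 | h5
      · exact key c' a' b' hF.rot.rot hcq.rot.rot
          (fun P hP hpP => ⟨(hfc P hP hpP).2.2, (hfc P hP hpP).1, (hfc P hP hpP).2.1⟩) h5 h1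
      · exact key a' c' b' hF.rot.rot.swap hcq.rot.rot.swap
          (fun P hP hpP => ⟨(hfc P hP hpP).1, (hfc P hP hpP).2.2, (hfc P hP hpP).2.1⟩) h5 h3
    · exact key a' b' c' hF hcq hfc h1 h3

end Main

end H10CQ
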